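import Pool.Agent.H5.HT.Def

/-!
# HT-A1: algebra of the derivation `D'`
-/

set_option autoImplicit false
set_option maxHeartbeats 400000

namespace Pool.Agent.H5.HT

open Pool.Agent.H58.BJ
open scoped ComplexConjugate

theorem a1_dl_X (k : ℕ) : dl (MvPolynomial.X k : Py) = ((k : ℝ) + 1) • MvPolynomial.X (k + 1) := by
  rw [dl, MvPolynomial.mkDerivation_X]

theorem a1_HW_smul {w : ℕ} {p : Py} (h : HW w p) (a : ℝ) : HW w (a • p) := by
  rw [HW, ← MvPolynomial.mem_weightedHomogeneousSubmodule] at h ⊢
  exact Submodule.smul_mem _ _ h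

theorem a1_HW_add {w : ℕ} {p q : Py} (h : HW w p) (h' : HW w q) : HW w (p + q) := h.add h'

theorem a1_HW_list_sum {w : ℕ} (L : List Py) (h : ∀ p ∈ L, HW w p) : HW w L.sum := by
  induction L with
  | nil => exact MvPolynomial.isWeightedHomogeneous_zero ℝ wf w
  | cons p L ih =>
    rw [List.sum_cons]
    exact a1_HW_add (h p List.mem_cons_self) (ih fun q hq => h q (List.mem_cons_of_mem _ hq))

theorem a1_HW_X (k : ℕ) : HW (k + 1) (MvPolynomial.X k : Py) :=
  MvPolynomial.isWeightedHomogeneous_X ℝ wf k

theorem a1_HW_prod (m : List ℕ) :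
    HW (wt m) ((m.map fun k => (MvPolynomial.X k : Py)).prod) ∧
      HW (wt m + 1) (dl ((m.map fun k => (MvPolynomial.X k : Py)).prod)) := by
  induction m with
  | nil =>
    constructor
    · exact MvPolynomial.isWeightedHomogeneous_one ℝ wf
    · have h : dl (([] : List ℕ).map fun k => (MvPolynomial.X k : Py)).prod = 0 := by
        rw [List.map_nil, List.prod_nil, Derivation.map_one_eq_zero]
      rw [h]
      exact MvPolynomial.isWeightedHomogeneous_zero ℝ wf _
  | cons k m ih =>
    have hw : wt (k :: m) = (k + 1) + wt m := by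
      rw [wt, List.map_cons, List.sum_cons]
      rfl
    rw [List.map_cons, List.prod_cons, hw]
    refine ⟨(a1_HW_X k).mul ih.1, ?_⟩
    rw [Derivation.leibniz, a1_dl_X, smul_eq_mul, smul_eq_mul]
    refine a1_HW_add ?_ ?_
    · have h := (a1_HW_X k).mul ih.2
      have e : k + 1 + (wt m + 1) = k + 1 + wt m + 1 := by ring
      rw [e] at h
      exact h
    · have h := ih.1.mul (a1_HW_smul (a1_HW_X (k + 1)) ((k : ℝ) + 1))
      have e : wt m + (k + 1 + 1) = k + 1 + wt m + 1 := by ring
      rw [e] at h
      exact h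

/-- a homogeneous polynomial is a sum of monomials given by lists -/
theorem HW_list {w : ℕ} {p : Py} (h : HW w p) :
    ∃ L : List (ℝ × List ℕ), (∀ x ∈ L, wt x.2 = w) ∧
      p = (L.map fun x => x.1 • (x.2.map fun k => (MvPolynomial.X k : Py)).prod).sum := by
  classical
  have hwt : ∀ d : ℕ →₀ ℕ, wt (Finsupp.toMultiset d).toList = Finsupp.weight wf d := by
    intro d
    have h1 : wt (Finsupp.toMultiset d).toList
        = ((Finsupp.toMultiset d).map fun k => k + 1).sum := by
      rw [wt, ← Multiset.sum_coe, ← Multiset.map_coe, Multiset.coe_toList]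
    rw [h1]
    clear h1
    induction d using Finsupp.induction_linear with
    | zero => simp
    | add f g hf hg => rw [map_add, Multiset.map_add, Multiset.sum_add, hf, hg, map_add]
    | single a n =>
      rw [Finsupp.toMultiset_single, Multiset.map_nsmul, Multiset.sum_nsmul,
        Finsupp.weight_apply, Finsupp.sum_single_index (by simp)]
      simp [wf]
  have hmon : ∀ d : ℕ →₀ ℕ,
      (((Finsupp.toMultiset d).toList).map fun k => (MvPolynomial.X k : Py)).prod
        = MvPolynomial.monomial d (1 : ℝ) := by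
    intro d
    have h1 : (((Finsupp.toMultiset d).toList).map fun k => (MvPolynomial.X k : Py)).prod
        = ((Finsupp.toMultiset d).map fun k => (MvPolynomial.X k : Py)).prod := by
      rw [← Multiset.prod_coe, ← Multiset.map_coe, Multiset.coe_toList]
    rw [h1]
    clear h1
    induction d using Finsupp.induction_linear with
    | zero => simp
    | add f g hf hg =>
      rw [map_add, Multiset.map_add, Multiset.prod_add, hf, hg, MvPolynomial.monomial_mul, one_mul]
    | single a n =>
      rw [Finsupp.toMultiset_single, Multiset.map_nsmul, Multiset.prod_nsmul]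
      simp [MvPolynomial.X_pow_eq_monomial]
  refine ⟨p.support.toList.map fun d => (p.coeff d, (Finsupp.toMultiset d).toList), ?_, ?_⟩
  · intro x hx
    rw [List.mem_map] at hx
    obtain ⟨d, hd, rfl⟩ := hx
    rw [Finset.mem_toList, MvPolynomial.mem_support_iff] at hd
    rw [hwt]
    exact h hd
  · rw [List.map_map]
    have h1 : ((fun x : ℝ × List ℕ => x.1 • (x.2.map fun k => (MvPolynomial.X k : Py)).prod) ∘
        fun d : ℕ →₀ ℕ => (p.coeff d, (Finsupp.toMultiset d).toList)) =
        fun d => MvPolynomial.monomial d (p.coeff d) := by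
      funext d
      rw [Function.comp_apply, hmon, MvPolynomial.smul_monomial, smul_eq_mul, mul_one]
    rw [h1, Finset.sum_map_toList]
    exact p.as_sum

theorem a1_HW_dl {w : ℕ} {p : Py} (h : HW w p) : HW (w + 1) (dl p) := by
  obtain ⟨L, hL, rfl⟩ := HW_list h
  rw [map_list_sum, List.map_map]
  apply a1_HW_list_sum
  intro q hq
  rw [List.mem_map] at hq
  obtain ⟨x, hx, rfl⟩ := hq
  rw [Function.comp_apply, Derivation.map_smul]
  apply a1_HW_smul
  rw [← hL x hx]
  exact (a1_HW_prod x.2).2

theorem HW_dO {w : ℕ} {p : Py} (h : HW w p) : HW (w + 1) (dO p) := by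
  rw [dO]
  refine a1_HW_add ?_ (a1_HW_dl h)
  have h1 := (a1_HW_X 0).mul h
  have e : 0 + 1 + w = w + 1 := by ring
  rw [e] at h1
  exact h1.neg

theorem HW_dO_iter {w : ℕ} {p : Py} (h : HW w p) (k : ℕ) : HW (w + k) (dO^[k] p) := by
  induction k with
  | zero => exact h
  | succ k ih =>
    rw [Function.iterate_succ_apply']
    exact HW_dO ih

theorem a1_dO_add (p q : Py) : dO (p + q) = dO p + dO q := by
  rw [dO, dO, dO, map_add]
  ring

theorem a1_dO_zero : dO (0 : Py) = 0 := by
  rw [dO, map_zero]
  ring

theorem a1_dO_smul (a : ℝ) (p : Py) : dO (a • p) = a • dO p := by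
  rw [dO, dO, Derivation.map_smul, smul_add, smul_neg, mul_smul_comm]

theorem a1_dO_sum {ι : Type} (s : Finset ι) (f : ι → Py) :
    dO (∑ i ∈ s, f i) = ∑ i ∈ s, dO (f i) := by
  classical
  induction s using Finset.induction_on with
  | empty => rw [Finset.sum_empty, Finset.sum_empty, a1_dO_zero]
  | insert a s ha ih => rw [Finset.sum_insert ha, Finset.sum_insert ha, a1_dO_add, ih]

theorem dO_iter_sum {ι : Type} (s : Finset ι) (f : ι → Py) (k : ℕ) :
    dO^[k] (∑ i ∈ s, f i) = ∑ i ∈ s, dO^[k] (f i) := by
  induction k with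
  | zero => rfl
  | succ k ih =>
    rw [Function.iterate_succ_apply', ih, a1_dO_sum]
    exact Finset.sum_congr rfl fun i _ => by rw [Function.iterate_succ_apply']

theorem dO_iter_smul (a : ℝ) (p : Py) (k : ℕ) : dO^[k] (a • p) = a • dO^[k] p := by
  induction k with
  | zero => rfl
  | succ k ih => rw [Function.iterate_succ_apply', ih, a1_dO_smul, Function.iterate_succ_apply']

theorem a1_va_list (η : ℕ → ℂ) (m : List ℕ) :
    va η ((m.map fun k => (MvPolynomial.X k : Py)).prod) = X η m ∧
      va η (dl ((m.map fun k => (MvPolynomial.X k : Py)).prod)) = dX η m := by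
  induction m with
  | nil =>
    constructor
    · rw [va, X, List.map_nil, List.prod_nil, List.map_nil, List.prod_nil, map_one]
    · rw [va, dX, List.map_nil, List.prod_nil, Derivation.map_one_eq_zero, map_zero]
  | cons k m ih =>
    constructor
    · rw [List.map_cons, List.prod_cons, va, map_mul, ← va, ← va, ih.1, X, X, List.map_cons,
        List.prod_cons, va, MvPolynomial.aeval_X]
    · rw [List.map_cons, List.prod_cons, Derivation.leibniz, a1_dl_X, va, map_add, smul_eq_mul,
        smul_eq_mul, map_mul, map_mul, map_smul, MvPolynomial.aeval_X, MvPolynomial.aeval_X]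
      have h1 := ih.1
      have h2 := ih.2
      rw [va] at h1 h2
      rw [h1, h2, dX, Complex.real_smul]
      push_cast
      ring

/-- values of monomials -/
theorem va_list (η : ℕ → ℂ) (m : List ℕ) :
    va η ((m.map fun k => (MvPolynomial.X k : Py)).prod) = X η m ∧
      va η (dO ((m.map fun k => (MvPolynomial.X k : Py)).prod)) = DX η m := by
  have h := a1_va_list η m
  refine ⟨h.1, ?_⟩
  have h1 := h.1
  have h2 := h.2
  rw [va] at h1 h2
  rw [dO, DX, va, map_add, map_neg, map_mul, MvPolynomial.aeval_X, h1, h2]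

/-- values at all points determine a polynomial -/
theorem va_ext {p q : Py} (h : ∀ η, va η p = va η q) : p = q := by
  apply MvPolynomial.funext
  intro x
  have h1 := h fun k => ((x k : ℝ) : ℂ)
  have h2 : ∀ r : Py, va (fun k => ((x k : ℝ) : ℂ)) r = ((MvPolynomial.eval x r : ℝ) : ℂ) := by
    intro r
    have h3 := MvPolynomial.aeval_algebraMap_apply (A := ℝ) ℂ x r
    rw [MvPolynomial.aeval_eq_eval] at h3
    exact h3
  rw [h2, h2] at h1
  exact_mod_cast h1

end Pool.Agent.H5.HT
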