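import Pool.Agent.H5.HT.KDef
import Pool.Agent.H58.BJ.C6

/-!
# Project HT, row K6: inserting the forms of the multipliers
-/

set_option autoImplicit false

namespace Pool.Agent.H5.HT

open Pool.Agent.H58.BJ
open scoped ComplexConjugate

private theorem k6_sq (χ : ℕ → ℂ) (hχ : Mult χ) (p : Pol) :
    (χ 1 * evP χ p * conj (χ 1 * evP χ p)).re = ‖evP χ p‖ ^ 2 := by
  rw [hχ.1, one_mul, Complex.mul_conj, Complex.ofReal_re, Complex.normSq_eq_norm_sq]

private theorem k6_bIns_cons (b : ℕ) (B : List ℕ) (p : Pol) (R : List Pol) (t : Tr) :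
    bIns (b :: B) (p :: R) t = bIns B R (insO 1 1 (b : ℤ) p p t) := by
  show fT (insO (nat_lit 1) (nat_lit 1) (Int.ofNat b) p p t) (bIns B R) = _
  rw [fT_eq]
  rfl

private theorem k6_bIns_nil (R : List Pol) (t : Tr) : bIns [] R t = t := rfl

private theorem k6_bIns_cons_nil (b : ℕ) (B : List ℕ) (t : Tr) : bIns (b :: B) [] t = t := rfl

private theorem k6_bIns_ev {χ : ℕ → ℂ} (hχ : Mult χ) (B : List ℕ) :
    ∀ (R : List Pol) (t : Tr), good (bIns B R t) 16 = true →
      good t 16 = true ∧ evT (bIns B R t) (FF χ) = evT t (FF χ) +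
        ((B.zip R).map fun x => ((x.1 : ℕ) : ℝ) * ‖evP χ x.2‖ ^ 2).sum := by
  induction B with
  | nil =>
    intro R t h
    rw [k6_bIns_nil] at h ⊢
    exact ⟨h, by simp⟩
  | cons b B ih =>
    intro R t h
    cases R with
    | nil =>
      rw [k6_bIns_cons_nil] at h ⊢
      exact ⟨h, by simp⟩
    | cons p R =>
      rw [k6_bIns_cons] at h ⊢
      obtain ⟨h1, h2⟩ := ih _ _ h
      obtain ⟨h3, h4⟩ := insO_ev hχ _ _ _ _ _ _ h1
      refine ⟨h3, ?_⟩
      rw [h2, h4, k6_sq χ hχ, List.zip_cons_cons, List.map_cons, List.sum_cons]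
      push_cast
      ring

theorem hIns_ev {χ : ℕ → ℂ} (hχ : Mult χ) (h : HD) (t : Tr) (hg : good (hIns h t) 16 = true) :
    good t 16 = true ∧ evT (hIns h t) (FF χ) = evT t (FF χ) + hV χ h := by
  have e : hIns h t = bIns h.B h.R (insO 1 1 (-(h.A : ℤ)) h.YP h.YP t) := by
    show fT (insO (nat_lit 1) (nat_lit 1) (Int.neg (Int.ofNat h.A)) h.YP h.YP t)
      (bIns h.B h.R) = _
    rw [fT_eq]
    rfl
  rw [e] at hg ⊢
  obtain ⟨h1, h2⟩ := k6_bIns_ev hχ _ _ _ hg
  obtain ⟨h3, h4⟩ := insO_ev hχ _ _ _ _ _ _ h1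
  refine ⟨h3, ?_⟩
  rw [h2, h4, k6_sq χ hχ, hV]
  push_cast
  ring

theorem hAll_ev {χ : ℕ → ℂ} (hχ : Mult χ) (l : List HD) (t : Tr)
    (hg : good (hAll l t) 16 = true) :
    good t 16 = true ∧ evT (hAll l t) (FF χ) = evT t (FF χ) + (l.map (hV χ)).sum := by
  induction l generalizing t with
  | nil =>
    refine ⟨hg, ?_⟩
    show evT t (FF χ) = _
    simp
  | cons h l ih =>
    have e : hAll (h :: l) t = hAll l (hIns h t) := by
      show fT (hIns h t) (hAll l) = _
      rw [fT_eq]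
    rw [e] at hg ⊢
    obtain ⟨h1, h2⟩ := ih _ hg
    obtain ⟨h3, h4⟩ := hIns_ev hχ h t h1
    refine ⟨h3, ?_⟩
    rw [h2, h4, List.map_cons, List.sum_cons]
    ring

theorem zerT_ev {t : Tr} (h : zerT t = true) (F : ℕ → ℝ) : evT t F = 0 := by
  induction t generalizing F with
  | e => rfl
  | lf z =>
    have h1 : eqI z 0 = true := h
    have h2 := eqI_eq h1
    show (z : ℝ) * F 0 = 0
    rw [h2]
    simp
  | nd l r ihl ihr =>
    have h1 : (zerT l && zerT r) = true := h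
    rw [Bool.and_eq_true] at h1
    show evT l (fun k => F (2 * k)) + evT r (fun k => F (2 * k + 1)) = 0
    rw [ihl h1.1, ihr h1.2, add_zero]

end Pool.Agent.H5.HT
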