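import Pool.Agent.H5.HT.KDef
import Pool.Agent.H58.BJ.Cert

/-!
# HT-K7: soundness of the evaluation of a list of commands without `Cmd.a`
-/

set_option autoImplicit false

namespace Pool.Agent.H5.HT

open Pool.Agent.H58.BJ
open scoped ComplexConjugate

theorem k7_step {χ : ℕ → ℂ} (hχ : Mult χ) (bn bd : ℤ) {tab : List (List ℕ × Ent)} {dd : List Pol}
    (cmd : Cmd) (hcmd : noA cmd = true) (t : Tr)
    (h : good (step bn bd tab dd cmd t) 16 = true) :
    good t 16 = true ∧ evT (step bn bd tab dd cmd t) (FF χ) ≤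
      evT t (FF χ) - 2 * cmdS χ bn bd tab cmd := by
  cases cmd with
  | g l =>
    have := gIns_ev hχ bn bd tab l t h
    exact ⟨this.1, this.2.le⟩
  | a n f l =>
    have h1 : (false : Bool) = true := hcmd
    exact absurd h1 Bool.false_ne_true
  | m w f l =>
    have e : step bn bd tab dd (Cmd.m w f l) t =
        blkIns [Int.ofNat w] q1 q1 (Int.neg (Int.ofNat f)) l t := by
      show fI (Int.neg (Int.ofNat f)) (fun f' => blkIns [Int.ofNat w] q1 q1 f' l t) = _
      rw [fI_eq]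
    rw [e] at h ⊢
    obtain ⟨h1, K, h2⟩ := blkIns_ev hχ [Int.ofNat w] q1 q1 _ l t h
    refine ⟨h1, ?_⟩
    rw [h2]
    have h3 : 0 ≤ ∑ k ∈ Finset.range K, WS χ [Int.ofNat w] q1 q1 (lam χ false k l)
        (lam χ true k l) := Finset.sum_nonneg fun k _ => WS_nonneg_m χ w q1 q1 _ _
    have h4 : ((Int.neg (Int.ofNat f) : ℤ) : ℝ) = -(f : ℝ) := by
      show ((-(f : ℤ) : ℤ) : ℝ) = _
      push_cast
      rfl
    rw [h4]
    have h5 : (0 : ℝ) ≤ f := Nat.cast_nonneg f
    show _ ≤ evT t (FF χ) - 2 * 0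
    nlinarith [mul_nonneg h5 h3]

theorem run_ev0 {χ : ℕ → ℂ} (hχ : Mult χ) (bn bd : ℤ) {tab : List (List ℕ × Ent)} {dd : List Pol}
    (l : List Cmd) (hl : ∀ c ∈ l, noA c = true) (t : Tr)
    (h : good (run bn bd tab dd l t) 16 = true) :
    good t 16 = true ∧ evT (run bn bd tab dd l t) (FF χ) ≤
      evT t (FF χ) - 2 * (l.map (cmdS χ bn bd tab)).sum := by
  induction l generalizing t with
  | nil =>
    refine ⟨h, ?_⟩
    show evT t (FF χ) ≤ evT t (FF χ) - 2 * 0
    linarith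
  | cons a l ih =>
    have e : run bn bd tab dd (a :: l) t = run bn bd tab dd l (step bn bd tab dd a t) := by
      show fT (step bn bd tab dd a t) (run bn bd tab dd l) = _
      rw [fT_eq]
    rw [e] at h ⊢
    obtain ⟨h1, h2⟩ := ih (fun c hc => hl c (List.mem_cons_of_mem _ hc)) _ h
    obtain ⟨h3, h4⟩ := k7_step hχ bn bd a (hl a List.mem_cons_self) t h1
    refine ⟨h3, ?_⟩
    rw [List.map_cons, List.sum_cons]
    linarith

end Pool.Agent.H5.HT
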