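import Pool.Agent.H5.HT.HSound
import Pool.Agent.H5.HT.HRun
import Pool.Agent.H5.HT.HIns

/-!
# Project HT: soundness of the whole certificate
-/

set_option autoImplicit false

namespace Pool.Agent.H5.HT

open Pool.Agent.H58.BJ
open scoped ComplexConjugate

/-- multiple of a list of terms -/
noncomputable def smM (a : ℝ) (μ : Mu) : Mu := μ.map fun t => (t.1, t.2.1, a * t.2.2)

theorem G_smM (β a : ℝ) (μ : Mu) (η : ℕ → ℂ) : G β (smM a μ) η = (a : ℂ) * G β μ η := by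
  unfold G smM
  rw [List.map_map, ← List.sum_map_mul_left]
  congr 1
  refine List.map_congr_left fun t _ => ?_
  simp only [Function.comp]
  push_cast
  ring

/-- the jets are `η_k = 2^(k+1) τ_k`, `τ_k` with code `ck (k+1)` -/
noncomputable def esOK (es : List Pol) (N : ℕ) : Bool :=
  allN N fun k => eqP (nth es k) [(ck (k + 1), Int.ofNat (2 ^ (k + 1)))]

theorem es_ex {N : ℕ} (hN : N ≤ 8) {es : List Pol} (h : esOK es N = true) (η : ℕ → ℂ) :
    ∃ χ, Mult χ ∧ ∀ k < N, evP χ (nth es k) = η k := by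
  obtain ⟨χ, hχ, hc, -⟩ := chi_exists (fun n => if n = 0 then 1 else η (n - 1) / 2 ^ n) rfl
  refine ⟨χ, hχ, fun k hk => ?_⟩
  have h1 := eqP_eq (allN_iff.1 h k hk)
  rw [h1]
  have h2 := hc (k + 1) (by omega)
  simp only [Nat.add_eq_zero_iff, one_ne_zero, and_false, if_false, Nat.add_sub_cancel] at h2
  show (List.map (fun x : ℕ × ℤ => (x.2 : ℂ) * χ x.1) [(ck (k + 1), Int.ofNat (2 ^ (k + 1)))]).sum = _
  simp only [List.map_cons, List.map_nil, List.sum_cons, List.sum_nil, add_zero]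
  rw [h2]
  have h3 : ((Int.ofNat (2 ^ (k + 1)) : ℤ) : ℂ) = 2 ^ (k + 1) := by
    show (((2 ^ (k + 1) : ℕ) : ℤ) : ℂ) = _
    push_cast
    rfl
  rw [h3]
  field_simp

/-- all multipliers are admissible -/
noncomputable def okHs (N bn bd L S MM : ℕ) (es gs : List Pol) (l : List HD) : Prop :=
  ∀ h ∈ l, okH N bn bd L S MM es gs h = true

/-- the sum of the multiplier forms -/
theorem hs_all {bn bd N L S MM : ℕ} (hbd : 0 < bd) (hbn : 0 < bn) (hL : 0 < L) (hS : 0 < S)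
    {es gs : List Pol}
    (hes : ∀ η : ℕ → ℂ, ∃ χ, Mult χ ∧ ∀ k < N, evP χ (nth es k) = η k)
    (hg : gOK es L gs N = true) {l : List HD} (hl : okHs N bn bd L S MM es gs l) :
    ∃ μ : Mu, ∀ (c r η χ : ℕ → ℂ), c 0 = 1 → Slack c → RelR c r → RelY 1 r η → Mult χ →
      (∀ k < N, evP χ (nth es k) = η k) →
      (l.map (hV χ)).sum ≤ (G ((bn : ℝ) / bd) μ η).re := by
  induction l with
  | nil =>
    refine ⟨[], fun c r η χ _ _ _ _ _ _ => ?_⟩
    rw [G_nil]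
    simp
  | cons a l ih =>
    obtain ⟨μ, hμ⟩ := ih fun h hh => hl h (List.mem_cons_of_mem _ hh)
    obtain ⟨ν, hν⟩ := h_sound hbd hbn hL hS hes hg (hl a List.mem_cons_self)
    refine ⟨ν ++ μ, fun c r η χ h0 hs hr hy hχ he => ?_⟩
    rw [G_append, Complex.add_re, List.map_cons, List.sum_cons]
    exact add_le_add (hν c r η χ h0 hs hr hy hχ he) (hμ c r η χ h0 hs hr hy hχ he)

/-- **Soundness of the certificate.** -/
theorem cert_h {N bn bd L S MM : ℕ} (hN : N ≤ 8) (hbd : 0 < bd) (hbn : 0 < bn) (hL : 0 < L)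
    (hS : 0 < S) {es gs dd : List Pol} {tab : List (List ℕ × Ent)} {cmds : List Cmd}
    {hs : List HD} {C : ℕ} (hC : 0 < C) (h1 : esOK es N = true) (h2 : gOK es L gs N = true)
    (h3 : okHs N bn bd L S MM es gs hs) (h4 : tabOK N es tab = true)
    (h5 : okL N es cmds = true) (h6 : ∀ c ∈ cmds, noA c = true)
    (h7 : Bool.and (good (hAll hs (run (bn : ℤ) bd tab dd cmds (ins 1 1 (-(C : ℤ)) Tr.e))) 16)
      (zerT (hAll hs (run (bn : ℤ) bd tab dd cmds (ins 1 1 (-(C : ℤ)) Tr.e)))) = true) :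
    ∃ (μ : Mu) (κ : ℝ), 0 < κ ∧ ∀ c r η : ℕ → ℂ, c 0 = 1 → Slack c → RelR c r → RelY 1 r η →
      (G ((bn : ℝ) / bd) μ η).re ≤ -κ := by
  have hbdz : (0 : ℤ) < bd := by exact_mod_cast hbd
  have hbd' : (0 : ℝ) < bd := by exact_mod_cast hbd
  have hC' : (0 : ℝ) < C := by exact_mod_cast hC
  obtain ⟨ν, hν⟩ := hs_all hbd hbn hL hS (es_ex hN h1) h2 h3
  rw [show ∀ a b : Bool, Bool.and a b = (a && b) from fun _ _ => rfl, Bool.and_eq_true] at h7
  refine ⟨smM (2 * bd) (cmds.flatMap (cmdMu tab)) ++ smM (-1) ν, C, hC', ?_⟩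
  intro c r η h0 hs' hr hy
  obtain ⟨χ, hχ, he⟩ := es_ex hN h1 η
  have ht := tab_sound hχ he h4
  obtain ⟨g1, g2⟩ := hAll_ev hχ hs _ h7.1
  obtain ⟨g3, g4⟩ := run_ev0 hχ (bn : ℤ) bd cmds h6 _ g1
  obtain ⟨-, g5⟩ := ins_ev χ 1 1 _ Tr.e g3
  rw [zerT_ev h7.2] at g2
  have g6 : (χ 1 * (starRingEnd ℂ) (χ 1)).re = 1 := by
    rw [hχ.1]; simp
  have g7 : evT Tr.e (FF χ) = 0 := rfl
  rw [g6, g7] at g5
  have g8 := cmds_eq hχ hbdz he ht cmds (okL_mem h5) (bn := (bn : ℤ))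
  have g9 := hν c r η χ h0 hs' hr hy hχ he
  rw [G_append, Complex.add_re, G_smM, G_smM, Complex.re_ofReal_mul, Complex.re_ofReal_mul]
  rw [← g8] at g4
  push_cast at g4 g5 g8 ⊢
  rw [g5] at g4
  linarith

end Pool.Agent.H5.HT
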