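import Pool.Agent.H5.HT.Def

/-!
# Project HT, row A4: rising factorials and the Chu-Vandermonde identity
-/

set_option autoImplicit false

namespace Pool.Agent.H5.HT

open Pool.Agent.H58.BJ
open scoped ComplexConjugate

theorem pc_zero_of {d l : ℕ} (h1 : 1 ≤ d) (h2 : d ≤ l) : pc (1 - (d : ℝ)) l = 0 := by
  unfold pc
  refine Finset.prod_eq_zero (i := d - 1) (Finset.mem_range.mpr (by omega)) ?_
  rw [Nat.cast_sub h1]
  push_cast
  ring

theorem pc_one (l : ℕ) : pc 1 l = l.factorial := by
  unfold pc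
  rw [← Finset.prod_range_add_one_eq_factorial]
  push_cast
  exact Finset.prod_congr rfl fun i _ => add_comm _ _

theorem pc_add (x : ℝ) (k l : ℕ) : pc x (k + l) = pc x k * pc (x + k) l := by
  unfold pc
  rw [Finset.prod_range_add]
  congr 1
  refine Finset.prod_congr rfl fun i _ => ?_
  push_cast
  ring

theorem pc_pos {x : ℝ} (hx : 0 < x) (n : ℕ) : 0 < pc x n := by
  unfold pc
  exact Finset.prod_pos fun i _ => by positivity

theorem a4_succ (x : ℝ) (n : ℕ) : pc x (n + 1) = pc x n * (x + n) := by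
  unfold pc
  rw [Finset.prod_range_succ]

theorem a4_succ' (x : ℝ) (n : ℕ) : pc x (n + 1) = x * pc (x + 1) n := by
  rw [add_comm n 1, pc_add]
  congr 1
  · unfold pc
    simp
  · push_cast
    rfl

theorem vand {α : ℝ} (hα : 0 < α) (κ : ℝ) (l : ℕ) :
    ∑ p ∈ Finset.range (l + 1), (-1) ^ p * (l.choose p : ℝ) * pc κ p / pc α p =
      pc (α - κ) l / pc α l := by
  induction l generalizing α κ with
  | zero => simp [pc]
  | succ l ih =>
    have h1 : ∑ p ∈ Finset.range (l + 1 + 1),
        (-1) ^ p * ((l + 1).choose p : ℝ) * pc κ p / pc α p =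
        ∑ p ∈ Finset.range (l + 1), (-1) ^ p * (l.choose p : ℝ) * pc κ p / pc α p -
          κ / α * ∑ p ∈ Finset.range (l + 1),
            (-1) ^ p * (l.choose p : ℝ) * pc (κ + 1) p / pc (α + 1) p := by
      have h2 : ∑ p ∈ Finset.range (l + 1), (-1 : ℝ) ^ p * (l.choose p : ℝ) * pc κ p / pc α p =
          ∑ p ∈ Finset.range (l + 1 + 1), (-1 : ℝ) ^ p * (l.choose p : ℝ) * pc κ p / pc α p := by
        rw [Finset.sum_range_succ _ (l + 1), Nat.choose_succ_self]
        simp
      rw [h2, Finset.sum_range_succ' _ (l + 1), Finset.sum_range_succ' _ (l + 1), Finset.mul_sum]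
      have h3 : ∑ k ∈ Finset.range (l + 1),
          (-1 : ℝ) ^ (k + 1) * ((l + 1).choose (k + 1) : ℝ) * pc κ (k + 1) / pc α (k + 1) =
          ∑ k ∈ Finset.range (l + 1),
            (-1 : ℝ) ^ (k + 1) * (l.choose (k + 1) : ℝ) * pc κ (k + 1) / pc α (k + 1) -
          ∑ k ∈ Finset.range (l + 1),
            κ / α * ((-1) ^ k * (l.choose k : ℝ) * pc (κ + 1) k / pc (α + 1) k) := by
        rw [← Finset.sum_sub_distrib]
        refine Finset.sum_congr rfl fun k _ => ?_
        have h4 : pc (α + 1) k ≠ 0 := (pc_pos (by positivity) k).ne'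
        rw [a4_succ', a4_succ', Nat.choose_succ_succ]
        push_cast
        field_simp
        ring
      rw [h3]
      simp only [Nat.choose_zero_right]
      ring
    rw [h1, ih hα, ih (by positivity : (0 : ℝ) < α + 1)]
    have h2 : α + 1 - (κ + 1) = α - κ := by ring
    have h3 : pc α l ≠ 0 := (pc_pos hα l).ne'
    have h4 : pc (α + 1) l ≠ 0 := (pc_pos (by positivity) l).ne'
    have h5 : α + l ≠ 0 := by positivity
    have h6 : pc α l * (α + l) = α * pc (α + 1) l := by rw [← a4_succ, a4_succ']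
    rw [h2, a4_succ (α - κ), a4_succ α]
    rw [div_sub' h3, div_eq_div_iff h3 (mul_ne_zero h3 h5)]
    have h7 : κ / α * (pc (α - κ) l / pc (α + 1) l) = κ * pc (α - κ) l / (pc α l * (α + l)) := by
      rw [h6]
      field_simp
    rw [h7]
    field_simp
    ring

end Pool.Agent.H5.HT
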