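import Pool.Agent.H5.HT.Alg
import Pool.Agent.H5.HT.Vand

/-!
# Project HT, row A6: the decomposition of `Y c_n`
-/

set_option autoImplicit false

namespace Pool.Agent.H5.HT

open Pool.Agent.H58.BJ
open scoped ComplexConjugate

theorem Rs_eq (β : ℝ) (m : ℕ) (K : ℕ → Py) (k : ℕ) :
    K k = Rs β m K k +
      ∑ j ∈ Finset.range k, ee β m k j • dO^[k - j] (Rs β m K j) := by
  have h : Rs β m K k = K k - ∑ j : Fin k, ee β m k j • dO^[k - j] (Rs β m K j) := by
    unfold Rs
    rw [Nat.strongRec_eq]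
  rw [h, Finset.sum_range, sub_add_cancel]

theorem HW_Rs {β : ℝ} {m : ℕ} {K : ℕ → Py} (hK : ∀ k, HW (m + k) (K k)) (k : ℕ) :
    HW (m + k) (Rs β m K k) := by
  induction k using Nat.strong_induction_on with
  | _ k ih =>
    have h : Rs β m K k = K k -
        ∑ j ∈ Finset.range k, ee β m k j • dO^[k - j] (Rs β m K j) :=
      eq_sub_of_add_eq (Rs_eq β m K k).symm
    have hmem : Rs β m K k ∈ MvPolynomial.weightedHomogeneousSubmodule ℝ wf (m + k) := by
      rw [h]
      refine Submodule.sub_mem _ ((MvPolynomial.mem_weightedHomogeneousSubmodule ℝ wf _ _).mpr (hK k))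
        (Submodule.sum_mem _ fun j hj => Submodule.smul_mem _ _ ?_)
      have hj' := Finset.mem_range.mp hj
      have h1 := HW_dO_iter (ih j hj') (k - j)
      have h2 : m + j + (k - j) = m + k := by omega
      rw [h2] at h1
      exact (MvPolynomial.mem_weightedHomogeneousSubmodule ℝ wf _ _).mpr h1
    exact (MvPolynomial.mem_weightedHomogeneousSubmodule ℝ wf _ _).mp hmem

theorem a6_shift (x : ℝ) (N : ℕ) : pc x N * (x + N) = x * pc (x + 1) N := by
  have h1 : pc x (N + 1) = pc x N * (x + N) := by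
    unfold pc
    rw [Finset.prod_range_succ]
  have h2 : pc x (N + 1) = x * pc (x + 1) N := by
    unfold pc
    rw [Finset.prod_range_succ', mul_comm]
    congr 1
    · simp
    · refine Finset.prod_congr rfl fun i _ => ?_
      push_cast
      ring
  rw [← h1, h2]

theorem a6_ne (n : ℕ) : 2 * (n : ℝ) - 1 ≠ 0 := by
  have h1 : 2 * (n : ℝ) - 1 = ((2 * (n : ℤ) - 1 : ℤ) : ℝ) := by push_cast; ring
  rw [h1, Int.cast_ne_zero]
  omega

/-- the coefficients -/
theorem a6_coeff {β : ℝ} (hβ : 0 < β) (m n j p : ℕ) (h : j + p ≤ n) :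
    bb n (j + p) * ee β m (j + p) j =
      ta n j * (((n - j).choose p : ℝ) / pc (al β (m + j)) p) := by
  obtain ⟨r, rfl⟩ := Nat.exists_eq_add_of_le h
  have e1 : j + p + r - (j + p) = r := by omega
  have e2 : j + p - j = p := by omega
  have e3 : j + p + r - j = p + r := by omega
  have hal : pc (al β (m + j)) p ≠ 0 := by
    refine (pc_pos ?_ p).ne'
    unfold al
    positivity
  unfold bb ee ta
  rw [e1, e2, e3]
  have hc : (((p + r).choose p : ℕ) : ℝ) = ((p + r).factorial : ℝ) / (p.factorial * r.factorial) := by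
    rw [Nat.cast_choose ℝ (Nat.le_add_right p r), Nat.add_sub_cancel_left]
  have hs := a6_shift (((j + p : ℕ) : ℝ) - 1 / 2) r
  have hadd : pc (1 / 2 + (j : ℝ)) (p + r) = pc (1 / 2 + (j : ℝ)) p *
      pc (((j + p : ℕ) : ℝ) - 1 / 2 + 1) r := by
    rw [pc_add]
    congr 2
    push_cast
    ring
  have hn1 := a6_ne (j + p)
  have hn2 := a6_ne (j + p + r)
  have hp := Nat.cast_ne_zero (R := ℝ) |>.mpr (Nat.factorial_ne_zero p)
  have hr := Nat.cast_ne_zero (R := ℝ) |>.mpr (Nat.factorial_ne_zero r)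
  have hpr := Nat.cast_ne_zero (R := ℝ) |>.mpr (Nat.factorial_ne_zero (p + r))
  rw [hc, hadd]
  have hs' : pc (((j + p : ℕ) : ℝ) - 1 / 2) r * (2 * ((j + p + r : ℕ) : ℝ) - 1) =
      (2 * ((j + p : ℕ) : ℝ) - 1) * pc (((j + p : ℕ) : ℝ) - 1 / 2 + 1) r := by
    have h2 : (2 * ((j + p + r : ℕ) : ℝ) - 1) = 2 * ((((j + p : ℕ) : ℝ) - 1 / 2) + (r : ℝ)) := by
      push_cast
      ring
    rw [h2]
    linear_combination 2 * hs
  clear hs hadd hc
  generalize pc (((j + p : ℕ) : ℝ) - 1 / 2) r = A at *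
  generalize pc (((j + p : ℕ) : ℝ) - 1 / 2 + 1) r = B at *
  generalize pc (1 / 2 + (j : ℝ)) p = Q at *
  generalize pc (al β (m + j)) p = E at *
  generalize 2 * ((j + p : ℕ) : ℝ) - 1 = D1 at *
  generalize 2 * ((j + p + r : ℕ) : ℝ) - 1 = D2 at *
  generalize ((p + r).factorial : ℝ) = F1 at *
  generalize (p.factorial : ℝ) = F2 at *
  generalize (r.factorial : ℝ) = F3 at *
  field_simp
  linear_combination -Q * hs'

theorem a6_swap (f : ℕ → ℕ → Py) (n : ℕ) :
    ∑ k ∈ Finset.range (n + 1), ∑ j ∈ Finset.range (k + 1), f k j =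
      ∑ j ∈ Finset.range (n + 1), ∑ p ∈ Finset.range (n - j + 1), f (j + p) j := by
  induction n with
  | zero => simp
  | succ n ih =>
    rw [Finset.sum_range_succ, ih, Finset.sum_range_succ (fun j => f (n + 1) j),
      Finset.sum_range_succ (fun j => ∑ p ∈ Finset.range (n + 1 - j + 1), f (j + p) j)]
    have h1 : ∑ j ∈ Finset.range (n + 1), ∑ p ∈ Finset.range (n + 1 - j + 1), f (j + p) j =
        ∑ j ∈ Finset.range (n + 1), ∑ p ∈ Finset.range (n - j + 1), f (j + p) j +
          ∑ j ∈ Finset.range (n + 1), f (n + 1) j := by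
      rw [← Finset.sum_add_distrib]
      refine Finset.sum_congr rfl fun j hj => ?_
      have hj' := Finset.mem_range.mp hj
      have e1 : n + 1 - j + 1 = (n - j + 1) + 1 := by omega
      have e2 : j + (n - j + 1) = n + 1 := by omega
      rw [e1, Finset.sum_range_succ, e2]
    have h2 : ∑ p ∈ Finset.range (n + 1 - (n + 1) + 1), f (n + 1 + p) (n + 1) =
        f (n + 1) (n + 1) := by
      rw [Nat.sub_self, zero_add, Finset.sum_range_one, add_zero]
    rw [h1, h2, add_assoc]

/-- the decomposition of `Y c_n` -/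
theorem decomp {β : ℝ} (hβ : 0 < β) (m : ℕ) (K : ℕ → Py) {n : ℕ} (hn : 1 ≤ n) :
    ∑ k ∈ Finset.range (n + 1), bb n k • K k =
      ∑ j ∈ Finset.range (n + 1), ta n j • Lg (al β (m + j)) (n - j) (Rs β m K j) := by
  have h1 : ∀ k, K k = ∑ j ∈ Finset.range (k + 1), ee β m k j • dO^[k - j] (Rs β m K j) := by
    intro k
    have e : ee β m k k = 1 := by
      unfold ee pc
      simp
    rw [Finset.sum_range_succ, e, Nat.sub_self, one_smul, Function.iterate_zero, id, add_comm]
    exact Rs_eq β m K k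
  have h2 : ∑ k ∈ Finset.range (n + 1), bb n k • K k =
      ∑ k ∈ Finset.range (n + 1), ∑ j ∈ Finset.range (k + 1),
        (bb n k * ee β m k j) • dO^[k - j] (Rs β m K j) := by
    refine Finset.sum_congr rfl fun k _ => ?_
    conv_lhs => rw [h1 k]
    rw [Finset.smul_sum]
    refine Finset.sum_congr rfl fun j _ => ?_
    rw [smul_smul]
  rw [h2, a6_swap]
  refine Finset.sum_congr rfl fun j hj => ?_
  have hj' := Finset.mem_range.mp hj
  unfold Lg
  rw [Finset.smul_sum]
  refine Finset.sum_congr rfl fun p hp => ?_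
  have hp' := Finset.mem_range.mp hp
  rw [smul_smul, a6_coeff hβ m n j p (by omega), Nat.add_sub_cancel_left]

end Pool.Agent.H5.HT
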