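import Pool.Agent.H5.HT.KDef
import Pool.Agent.H5.HT.Alg
import Pool.Agent.H58.BJ.C4

/-!
# HT-K1: values of polynomials in the jets
-/

set_option autoImplicit false

namespace Pool.Agent.H5.HT

open Pool.Agent.H58.BJ
open scoped ComplexConjugate

theorem allN_iff {n : ℕ} {f : ℕ → Bool} : allN n f = true ↔ ∀ k < n, f k = true := by
  induction n with
  | zero =>
    constructor
    · intro _ k hk
      omega
    · intro _
      rfl
  | succ n ih =>
    have h1 : allN (n + 1) f = Bool.and (allN n f) (f n) := rfl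
    rw [h1]
    constructor
    · intro h k hk
      obtain ⟨h2, h3⟩ := c0_and h
      rcases Nat.lt_succ_iff_lt_or_eq.1 hk with h4 | h4
      · exact ih.1 h2 k h4
      · rw [h4]
        exact h3
    · intro h
      have h2 : allN n f = true := ih.2 fun k hk => h k (by omega)
      have h3 : f n = true := h n (by omega)
      rw [h2, h3]
      rfl

theorem k1_negP (χ : ℕ → ℂ) (q : Pol) : evP χ (negP q) = -evP χ q := by
  induction q with
  | nil =>
    show evP χ [] = -evP χ []
    simp [evP]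
  | cons x q ih =>
    have h1 : negP (x :: q) = (x.1, -x.2) :: negP q := rfl
    have h2 : ∀ (y : ℕ × ℤ) (p : Pol), evP χ (y :: p) = (y.2 : ℂ) * χ y.1 + evP χ p := by
      intro y p; simp [evP]
    rw [h1, h2, h2, ih]
    push_cast
    ring

theorem k1_zerP (χ : ℕ → ℂ) (p : Pol) (h : zerP p = true) : evP χ p = 0 := by
  induction p with
  | nil => simp [evP]
  | cons x p ih =>
    have h1 : zerP (x :: p) = Bool.and (eqI x.2 (Int.ofNat (nat_lit 0))) (zerP p) := rfl
    rw [h1] at h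
    obtain ⟨h2, h3⟩ := c0_and h
    have h4 : x.2 = 0 := eqI_eq h2
    have h5 : ∀ (y : ℕ × ℤ) (p : Pol), evP χ (y :: p) = (y.2 : ℂ) * χ y.1 + evP χ p := by
      intro y p; simp [evP]
    rw [h5, ih h3, h4]
    simp

theorem eqN_ev (χ : ℕ → ℂ) {p q : Pol} (h : eqN p q = true) : evP χ p = evP χ q := by
  have h1 := k1_zerP χ _ h
  rw [evP_norP, evP_app, k1_negP] at h1
  linear_combination h1

theorem k1_wE_cons {w : ℕ} {x : ℤ × List ℕ} {p : EP} (h : wE w (x :: p) = true) :
    wt x.2 = w ∧ wE w p = true := by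
  have h1 : wE w (x :: p) = Bool.and (Nat.beq (wtL x.2) w) (wE w p) := rfl
  rw [h1] at h
  obtain ⟨h2, h3⟩ := c0_and h
  refine ⟨?_, h3⟩
  rw [← wtL_eq]
  exact Nat.eq_of_beq_eq_true h2

theorem k1_toE_cons (x : ℤ × List ℕ) (p : EP) :
    toE (x :: p) = ((x.1 : ℤ) : ℝ) • (x.2.map fun k => (MvPolynomial.X k : Py)).prod + toE p := by
  unfold toE
  rw [List.map_cons, List.sum_cons]

theorem k1_va_cons (η : ℕ → ℂ) (a : ℤ) (q r : Py) :
    va η (((a : ℤ) : ℝ) • q + r) = (a : ℂ) * va η q + va η r := by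
  unfold va
  rw [map_add, map_smul, Complex.real_smul]
  push_cast
  rfl

theorem vE_ev {χ : ℕ → ℂ} (hχ : Mult χ) {η : ℕ → ℂ} {N : ℕ} {es : List Pol}
    (he : ∀ k < N, evP χ (nth es k) = η k) {w : ℕ} (hw : w ≤ N) {p : EP} (hp : wE w p = true) :
    evP χ (vE es p) = va η (toE p) := by
  induction p with
  | nil =>
    have h1 : vE es [] = [] := rfl
    have h2 : toE [] = 0 := rfl
    rw [h1, h2, evP_nil]
    unfold va
    rw [map_zero]
  | cons x p ih =>
    obtain ⟨h1, h2⟩ := k1_wE_cons hp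
    have h3 : vE es (x :: p) = app (smulP x.1 (monP es x.2)) (vE es p) := rfl
    rw [h3, evP_app, evP_smulP hχ, c4_monP hχ he x.2 (by omega), ih h2, k1_toE_cons,
      k1_va_cons, (va_list η x.2).1]

theorem dE_ev {χ : ℕ → ℂ} (hχ : Mult χ) {η : ℕ → ℂ} {N : ℕ} {es : List Pol}
    (he : ∀ k < N, evP χ (nth es k) = η k) {w : ℕ} (hw : w < N) {p : EP} (hp : wE w p = true) :
    evP χ (dE es p) = va η (dO (toE p)) := by
  induction p with
  | nil =>
    have h1 : dE es [] = [] := rfl
    have h2 : toE [] = 0 := rfl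
    rw [h1, h2, evP_nil, a1_dO_zero]
    unfold va
    rw [map_zero]
  | cons x p ih =>
    obtain ⟨h1, h2⟩ := k1_wE_cons hp
    have h3 : dE es (x :: p) = app (smulP x.1 (DP es x.2)) (dE es p) := rfl
    rw [h3, evP_app, evP_smulP hχ, c4_DP hχ he x.2 (by omega), ih h2, k1_toE_cons,
      a1_dO_add, a1_dO_smul, k1_va_cons, (va_list η x.2).2]

theorem HW_toE {w : ℕ} {p : EP} (hp : wE w p = true) : HW w (toE p) := by
  induction p with
  | nil => exact MvPolynomial.isWeightedHomogeneous_zero ℝ wf w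
  | cons x p ih =>
    obtain ⟨h1, h2⟩ := k1_wE_cons hp
    rw [k1_toE_cons]
    refine a1_HW_add (a1_HW_smul ?_ _) (ih h2)
    rw [← h1]
    exact (a1_HW_prod x.2).1

end Pool.Agent.H5.HT
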