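import Pool.Agent.H5.HT.Def

/-!
# HT-B4: the coefficients of `(U/Φ~)^{1/2}` as polynomials in the jets
-/

set_option autoImplicit false

namespace Pool.Agent.H5.HT

open Pool.Agent.H58.BJ
open scoped ComplexConjugate

section B4

variable {A : Type} [CommRing A]

/-- left side of `RelR` -/
def b4_L (r c : ℕ → A) (n : ℕ) : A :=
  ∑ k ∈ Finset.range (n + 1), r k *
    ∑ i ∈ Finset.range (n - k + 1), c i * ((1 - 2 * ((n - k - i : ℕ) : A)) * c (n - k - i))

/-- right side of `RelR` without `c_{n+1}` -/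
def b4_R (c : ℕ → A) (n : ℕ) : A :=
  ∑ i ∈ Finset.range n, -3 * ((i : A) + 1) * c (i + 1) *
      ((1 - 2 * ((n - i : ℕ) : A)) * c (n - i)) +
    ∑ i ∈ Finset.range n, (((n - (i + 1) : ℕ) : A) + 1) * c (i + 1) *
      ((1 - 2 * ((n - (i + 1) + 1 : ℕ) : A)) * c (n - (i + 1) + 1))

theorem b4_L_congr {r c c' : ℕ → A} {n : ℕ} (h : ∀ i ≤ n, c i = c' i) :
    b4_L r c n = b4_L r c' n := by
  unfold b4_L
  refine Finset.sum_congr rfl fun k _ => ?_
  congr 1
  refine Finset.sum_congr rfl fun i hi => ?_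
  rw [Finset.mem_range] at hi
  rw [h i (by omega), h (n - k - i) (by omega)]

theorem b4_R_congr {c c' : ℕ → A} {n : ℕ} (h : ∀ i ≤ n, c i = c' i) :
    b4_R c n = b4_R c' n := by
  unfold b4_R
  congr 1
  · refine Finset.sum_congr rfl fun i hi => ?_
    rw [Finset.mem_range] at hi
    rw [h (i + 1) (by omega), h (n - i) (by omega)]
  · refine Finset.sum_congr rfl fun i hi => ?_
    rw [Finset.mem_range] at hi
    rw [h (i + 1) (by omega), h (n - (i + 1) + 1) (by omega)]

theorem b4_L_map {B : Type} [CommRing B] (φ : A →+* B) (r c : ℕ → A) (n : ℕ) :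
    φ (b4_L r c n) = b4_L (fun i => φ (r i)) (fun i => φ (c i)) n := by
  simp only [b4_L, map_sum, map_mul, map_sub, map_one, map_ofNat, map_natCast]

theorem b4_R_map {B : Type} [CommRing B] (φ : A →+* B) (c : ℕ → A) (n : ℕ) :
    φ (b4_R c n) = b4_R (fun i => φ (c i)) n := by
  simp only [b4_R, map_sum, map_mul, map_sub, map_one, map_ofNat, map_natCast, map_add, map_neg]

end B4

theorem b4_relR (c r : ℕ → ℂ) : RelR c r ↔
    ∀ n, b4_L r c n = -2 * ((n : ℂ) + 1) * ((n : ℂ) + 2) * (c 0 * c (n + 1)) + b4_R c n := by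
  unfold RelR
  refine forall_congr' fun n => ?_
  have h1 : ∑ i ∈ Finset.range (n + 1), (-3 * ((i : ℂ) + 1) * c (i + 1) * vv c (n - i) +
      (((n - i : ℕ) : ℂ) + 1) * c i * vv c (n - i + 1)) =
      -2 * ((n : ℂ) + 1) * ((n : ℂ) + 2) * (c 0 * c (n + 1)) + b4_R c n := by
    rw [Finset.sum_add_distrib, Finset.sum_range_succ, Finset.sum_range_succ'
      (fun i => (((n - i : ℕ) : ℂ) + 1) * c i * vv c (n - i + 1))]
    unfold b4_R vv
    simp only [Nat.sub_self, Nat.cast_zero, mul_zero, sub_zero, one_mul, Nat.sub_zero]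
    push_cast
    ring
  rw [h1]
  exact Iff.rfl

theorem relR_unique {c c' r : ℕ → ℂ} (h0 : c 0 = 1) (h0' : c' 0 = 1) (h : RelR c r)
    (h' : RelR c' r) (n : ℕ) : c n = c' n := by
  rw [b4_relR] at h h'
  induction n using Nat.strong_induction_on with
  | _ n ih =>
    rcases n with _ | n
    · rw [h0, h0']
    · have h1 := h n
      have h2 := h' n
      have hc : ∀ i ≤ n, c i = c' i := fun i hi => ih i (by omega)
      rw [b4_L_congr hc, b4_R_congr hc, h2, h0, h0'] at h1
      have h3 : (-2 * ((n : ℂ) + 1) * ((n : ℂ) + 2)) ≠ 0 := by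
        have h4 : ((n : ℂ) + 1) ≠ 0 := by exact_mod_cast Nat.succ_ne_zero n
        have h5 : ((n : ℂ) + 2) ≠ 0 := by exact_mod_cast Nat.succ_ne_zero (n + 1)
        exact mul_ne_zero (mul_ne_zero (by norm_num) h4) h5
      have h6 : (-2 * ((n : ℂ) + 1) * ((n : ℂ) + 2)) * (c' (n + 1)) =
          (-2 * ((n : ℂ) + 1) * ((n : ℂ) + 2)) * (c (n + 1)) := by
        linear_combination h1
      exact (mul_left_cancel₀ h3 h6).symm

/-! ### the polynomials -/

/-- one step of the recursion -/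
noncomputable def b4_F (n : ℕ) (g : ℕ → Py) : Py :=
  ((2 * ((n : ℝ) + 1) * ((n : ℝ) + 2))⁻¹) •
    (b4_R g n - b4_L (fun k => (MvPolynomial.X k : Py)) g n)

/-- the first `n` coefficients -/
noncomputable def b4_G : ℕ → ℕ → Py
  | 0 => fun _ => 1
  | n + 1 => Function.update (b4_G n) (n + 1) (b4_F n (b4_G n))

theorem b4_G_stab (n i : ℕ) (hi : i ≤ n) : b4_G n i = b4_G i i := by
  induction n with
  | zero =>
    have : i = 0 := by omega
    rw [this]
  | succ n ih =>
    rcases Nat.lt_or_ge i (n + 1) with h | h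
    · rw [← ih (by omega)]
      change Function.update (b4_G n) (n + 1) (b4_F n (b4_G n)) i = _
      rw [Function.update_of_ne (by omega)]
    · have : i = n + 1 := by omega
      rw [this]

theorem b4_F_congr {n : ℕ} {g g' : ℕ → Py} (h : ∀ i ≤ n, g i = g' i) :
    b4_F n g = b4_F n g' := by
  unfold b4_F
  rw [b4_L_congr h, b4_R_congr h]

theorem b4_G_succ (n : ℕ) : b4_G (n + 1) (n + 1) = b4_F n (fun i => b4_G i i) := by
  have h1 : b4_G (n + 1) (n + 1) = b4_F n (b4_G n) := by
    change Function.update (b4_G n) (n + 1) (b4_F n (b4_G n)) (n + 1) = _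
    rw [Function.update_self]
  rw [h1]
  exact b4_F_congr fun i hi => b4_G_stab n i hi

theorem b4_HW_cast (a : ℤ) {w : ℕ} {p : Py} (h : HW w p) : HW w ((a : Py) * p) := by
  have h1 : (a : Py) = MvPolynomial.C (a : ℝ) := by simp
  rw [h1]
  have h2 := (MvPolynomial.isWeightedHomogeneous_C (R := ℝ) wf (a : ℝ)).mul h
  rwa [zero_add] at h2

theorem b4_HW_mul {w w' v : ℕ} {p q : Py} (h : HW w p) (h' : HW w' q) (hv : w + w' = v) :
    HW v (p * q) := by
  rw [← hv]
  exact MvPolynomial.IsWeightedHomogeneous.mul h h'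

theorem b4_HW_sum {ι : Type} (s : Finset ι) (f : ι → Py) {w : ℕ} (h : ∀ i ∈ s, HW w (f i)) :
    HW w (∑ i ∈ s, f i) :=
  MvPolynomial.IsWeightedHomogeneous.sum s f w h

theorem b4_HW_add {w : ℕ} {p q : Py} (h : HW w p) (h' : HW w q) : HW w (p + q) :=
  MvPolynomial.IsWeightedHomogeneous.add h h'

theorem b4_HW_smul {w : ℕ} (a : ℝ) {p : Py} (h : HW w p) : HW w (a • p) :=
  (MvPolynomial.weightedHomogeneousSubmodule ℝ wf w).smul_mem a h

theorem b4_HW_sub {w : ℕ} {p q : Py} (h : HW w p) (h' : HW w q) : HW w (p - q) :=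
  (MvPolynomial.weightedHomogeneousSubmodule ℝ wf w).sub_mem h h'

theorem b4_HW_X (k : ℕ) : HW (k + 1) (MvPolynomial.X k : Py) :=
  MvPolynomial.isWeightedHomogeneous_X ℝ wf k

theorem b4_HW_F {n : ℕ} {g : ℕ → Py} (h : ∀ i ≤ n, HW i (g i)) : HW (n + 1) (b4_F n g) := by
  unfold b4_F
  refine b4_HW_smul _ (b4_HW_sub ?_ ?_)
  · unfold b4_R
    refine b4_HW_add (b4_HW_sum _ _ fun i hi => ?_) (b4_HW_sum _ _ fun i hi => ?_)
    · rw [Finset.mem_range] at hi
      have h1 : -3 * ((i : Py) + 1) * g (i + 1) * ((1 - 2 * ((n - i : ℕ) : Py)) * g (n - i)) =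
          (((-3 * ((i : ℤ) + 1) * (1 - 2 * ((n - i : ℕ) : ℤ)) : ℤ)) : Py) *
            (g (i + 1) * g (n - i)) := by
        push_cast
        ring
      rw [h1]
      exact b4_HW_cast _ (b4_HW_mul (h _ (by omega)) (h _ (by omega)) (by omega))
    · rw [Finset.mem_range] at hi
      have h1 : (((n - (i + 1) : ℕ) : Py) + 1) * g (i + 1) *
          ((1 - 2 * ((n - (i + 1) + 1 : ℕ) : Py)) * g (n - (i + 1) + 1)) =
          ((((((n - (i + 1) : ℕ) : ℤ) + 1) * (1 - 2 * ((n - (i + 1) + 1 : ℕ) : ℤ))) : ℤ) : Py) *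
            (g (i + 1) * g (n - (i + 1) + 1)) := by
        push_cast
        ring
      rw [h1]
      exact b4_HW_cast _ (b4_HW_mul (h _ (by omega)) (h _ (by omega)) (by omega))
  · unfold b4_L
    refine b4_HW_sum _ _ fun k hk => ?_
    rw [Finset.mem_range] at hk
    refine b4_HW_mul (b4_HW_X k) (w' := n - k) (b4_HW_sum _ _ fun i hi => ?_) (by omega)
    rw [Finset.mem_range] at hi
    have h1 : g i * ((1 - 2 * ((n - k - i : ℕ) : Py)) * g (n - k - i)) =
        (((1 - 2 * ((n - k - i : ℕ) : ℤ)) : ℤ) : Py) * (g i * g (n - k - i)) := by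
      push_cast
      ring
    rw [h1]
    exact b4_HW_cast _ (b4_HW_mul (h _ (by omega)) (h _ (by omega)) (by omega))

/-- the coefficients of `(U/Φ~)^{1/2}` as polynomials in the jets -/
theorem gp_exists : ∃ gp : ℕ → Py, gp 0 = 1 ∧ (∀ k, HW k (gp k)) ∧
    ∀ η, RelR (fun k => va η (gp k)) η := by
  refine ⟨fun i => b4_G i i, rfl, ?_, ?_⟩
  · intro k
    induction k using Nat.strong_induction_on with
    | _ k ih =>
      rcases k with _ | k
      · exact MvPolynomial.isWeightedHomogeneous_one ℝ wf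
      · change HW (k + 1) (b4_G (k + 1) (k + 1))
        rw [b4_G_succ]
        exact b4_HW_F fun i hi => ih i (by omega)
  · intro η
    rw [b4_relR]
    intro n
    have hva : ∀ p : Py, va η p = (MvPolynomial.aeval η : Py →ₐ[ℝ] ℂ).toRingHom p := fun p => rfl
    have h1 : va η (b4_G (n + 1) (n + 1)) =
        ((2 * ((n : ℂ) + 1) * ((n : ℂ) + 2))⁻¹) *
          (b4_R (fun k => va η (b4_G k k)) n - b4_L η (fun k => va η (b4_G k k)) n) := by
      rw [b4_G_succ]
      unfold b4_F
      have h2 : va η ((2 * ((n : ℝ) + 1) * ((n : ℝ) + 2))⁻¹ •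
          (b4_R (fun i => b4_G i i) n -
            b4_L (fun k => (MvPolynomial.X k : Py)) (fun i => b4_G i i) n)) =
          (((2 * ((n : ℝ) + 1) * ((n : ℝ) + 2))⁻¹ : ℝ) : ℂ) *
            va η (b4_R (fun i => b4_G i i) n -
              b4_L (fun k => (MvPolynomial.X k : Py)) (fun i => b4_G i i) n) := by
        unfold va
        rw [map_smul, Complex.real_smul]
      rw [h2, hva, map_sub, b4_R_map, b4_L_map]
      congr 1
      · push_cast
        rfl
      · congr 1
        have h3 : (fun i => (MvPolynomial.aeval η : Py →ₐ[ℝ] ℂ).toRingHom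
            ((fun k => (MvPolynomial.X k : Py)) i)) = η := by
          funext i
          change MvPolynomial.aeval η (MvPolynomial.X i) = η i
          exact MvPolynomial.aeval_X η i
        rw [h3]
        rfl
    have h0 : va η (b4_G 0 0) = 1 := by
      change va η 1 = 1
      unfold va
      exact map_one _
    have h4 : (2 * ((n : ℂ) + 1) * ((n : ℂ) + 2)) ≠ 0 := by
      have h4 : ((n : ℂ) + 1) ≠ 0 := by exact_mod_cast Nat.succ_ne_zero n
      have h5 : ((n : ℂ) + 2) ≠ 0 := by exact_mod_cast Nat.succ_ne_zero (n + 1)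
      exact mul_ne_zero (mul_ne_zero (by norm_num) h4) h5
    have h5 : 2 * ((n : ℂ) + 1) * ((n : ℂ) + 2) * va η (b4_G (n + 1) (n + 1)) =
        b4_R (fun k => va η (b4_G k k)) n - b4_L η (fun k => va η (b4_G k k)) n := by
      rw [h1, mul_inv_cancel_left₀ h4]
    simp only [h0, one_mul]
    linear_combination h5

end Pool.Agent.H5.HT
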