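import Pool.Agent.H5.HT.KDef
import Pool.Agent.H5.HT.Gp
import Pool.Agent.H5.HT.Ev
import Pool.Agent.H58.BJ.C0

/-!
# HT-K2: soundness of the recursion of `G_k = L^k g_k`
-/

set_option autoImplicit false

namespace Pool.Agent.H5.HT

open Pool.Agent.H58.BJ
open scoped ComplexConjugate

private theorem k2_allN {n : ℕ} {f : ℕ → Bool} (h : allN n f = true) : ∀ k < n, f k = true := by
  induction n with
  | zero =>
    intro k hk
    omega
  | succ n ih =>
    have h1 : Bool.and (allN n f) (f n) = true := h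
    obtain ⟨h3, h2⟩ := c0_and h1
    intro k hk
    rcases Nat.lt_succ_iff_lt_or_eq.1 hk with h4 | h4
    · exact ih h3 k h4
    · rw [h4]
      exact h2

private theorem k2_eqN (χ : ℕ → ℂ) {p q : Pol} (h : eqN p q = true) : evP χ p = evP χ q :=
  eqN_ev χ h

private theorem k2_rhs (c : ℕ → ℂ) (n : ℕ) :
    ∑ i ∈ Finset.range (n + 1), (-3 * ((i : ℂ) + 1) * c (i + 1) * vv c (n - i) +
      (((n - i : ℕ) : ℂ) + 1) * c i * vv c (n - i + 1)) =
      -2 * ((n : ℂ) + 1) * ((n : ℂ) + 2) * (c 0 * c (n + 1)) + b4_R c n := by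
  rw [Finset.sum_add_distrib, Finset.sum_range_succ, Finset.sum_range_succ'
    (fun i => (((n - i : ℕ) : ℂ) + 1) * c i * vv c (n - i + 1))]
  unfold b4_R vv
  simp only [Nat.sub_self, Nat.cast_zero, mul_zero, sub_zero, one_mul, Nat.sub_zero]
  push_cast
  ring

private theorem k2_gr {χ : ℕ → ℂ} (hχ : Mult χ) (gs : List Pol) (n : ℕ) :
    evP χ (gr gs n) = -2 * ((n : ℂ) + 1) * ((n : ℂ) + 2) *
      (evP χ (nth gs 0) * evP χ (nth gs (n + 1))) + b4_R (fun i => evP χ (nth gs i)) n := by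
  rw [← k2_rhs (fun i => evP χ (nth gs i)) n]
  unfold gr
  rw [evP_sumP]
  refine Finset.sum_congr rfl fun i _ => ?_
  rw [evP_app, evP_smulP hχ, evP_smulP hχ, evP_mulP hχ, evP_mulP hχ]
  unfold vv
  push_cast
  ring

private theorem k2_gl {χ : ℕ → ℂ} (hχ : Mult χ) {η g : ℕ → ℂ} {N : ℕ} {es gs : List Pol}
    (he : ∀ k < N, evP χ (nth es k) = η k) {L n : ℕ} (hn : n < N)
    (hg : ∀ i ≤ n, evP χ (nth gs i) = (L : ℂ) ^ i * g i) :
    evP χ (gl es L gs n) = (L : ℂ) ^ (n + 1) * b4_L η g n := by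
  unfold gl b4_L
  rw [evP_sumP, Finset.mul_sum]
  refine Finset.sum_congr rfl fun k hk => ?_
  rw [Finset.mem_range] at hk
  rw [evP_smulP hχ, evP_mulP hχ, evP_sumP, he k (by omega), Finset.mul_sum, Finset.mul_sum,
    Finset.mul_sum, Finset.mul_sum]
  refine Finset.sum_congr rfl fun i hi => ?_
  rw [Finset.mem_range] at hi
  rw [evP_smulP hχ, evP_mulP hχ, hg i (by omega), hg (n - k - i) (by omega)]
  have h1 : (L : ℂ) ^ (n + 1) = (L : ℂ) ^ (k + 1) * ((L : ℂ) ^ i * (L : ℂ) ^ (n - k - i)) := by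
    rw [← pow_add, ← pow_add]
    congr 1
    omega
  rw [h1]
  push_cast
  ring

private theorem k2_R {g : ℕ → ℂ} (L : ℂ) (n : ℕ) :
    b4_R (fun i => L ^ i * g i) n = L ^ (n + 1) * b4_R g n := by
  unfold b4_R
  rw [mul_add, Finset.mul_sum, Finset.mul_sum]
  congr 1
  · refine Finset.sum_congr rfl fun i hi => ?_
    rw [Finset.mem_range] at hi
    have h1 : L ^ (n + 1) = L ^ (i + 1) * L ^ (n - i) := by
      rw [← pow_add]
      congr 1
      omega
    rw [h1]
    ring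
  · refine Finset.sum_congr rfl fun i hi => ?_
    rw [Finset.mem_range] at hi
    have h1 : L ^ (n + 1) = L ^ (i + 1) * L ^ (n - (i + 1) + 1) := by
      rw [← pow_add]
      congr 1
      omega
    rw [h1]
    ring

theorem g_sound {χ : ℕ → ℂ} (hχ : Mult χ) {η g : ℕ → ℂ} {N : ℕ} {es : List Pol}
    (he : ∀ k < N, evP χ (nth es k) = η k) (hg0 : g 0 = 1) (hg : RelR g η) {L : ℕ} (hL : 0 < L)
    {gs : List Pol} (hok : gOK es L gs N = true) :
    ∀ k ≤ N, evP χ (nth gs k) = (L : ℂ) ^ k * g k := by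
  obtain ⟨hA, hB⟩ := c0_and hok
  have hB' := k2_allN hB
  have h0 : evP χ (nth gs 0) = 1 := by
    have h1 : nth gs 0 = [(1, Int.ofNat 1)] := eqP_eq hA
    rw [h1]
    simp [evP, hχ.1]
  rw [b4_relR] at hg
  intro k
  induction k using Nat.strong_induction_on with
  | _ k ih =>
    intro hk
    rcases k with _ | n
    · rw [h0, hg0]
      simp
    · have hG : ∀ i ≤ n, evP χ (nth gs i) = (L : ℂ) ^ i * g i := fun i hi =>
        ih i (by omega) (by omega)
      have h1 := k2_eqN χ (hB' n (by omega))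
      rw [k2_gl hχ he (by omega) hG, k2_gr hχ, hg n, h0, hg0,
        b4_R_congr (c' := fun i => (L : ℂ) ^ i * g i) (fun i hi => hG i hi), k2_R] at h1
      have h3 : (-2 * ((n : ℂ) + 1) * ((n : ℂ) + 2)) ≠ 0 := by
        have h4 : ((n : ℂ) + 1) ≠ 0 := by exact_mod_cast Nat.succ_ne_zero n
        have h5 : ((n : ℂ) + 2) ≠ 0 := by exact_mod_cast Nat.succ_ne_zero (n + 1)
        exact mul_ne_zero (mul_ne_zero (by norm_num) h4) h5
      refine mul_left_cancel₀ h3 ?_
      linear_combination -h1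

end Pool.Agent.H5.HT
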