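import Pool.Agent.H5.HT.Ev
import Pool.Agent.H5.HT.GRec
import Pool.Agent.H5.HT.Dec

/-!
# Project HT, row K4: the chain of the checker

The polynomials `P j 0` of the multiplier data are `d_j R_j`, where `R_j` are the quasi-primary
parts of the sequence `(1 - 2 k) Y g_k`.
-/

set_option autoImplicit false

namespace Pool.Agent.H5.HT

open Pool.Agent.H58.BJ
open scoped ComplexConjugate

private theorem k4_prN (n : ℕ) (f : ℕ → ℕ) :
    ((prN n f : ℕ) : ℝ) = ∏ i ∈ Finset.range n, (f i : ℝ) := by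
  induction n with
  | zero => simp [prN]
  | succ n ih =>
    have h : prN (n + 1) f = prN n f * f n := rfl
    rw [h, Nat.cast_mul, ih, Finset.prod_range_succ]

theorem ee_eq {bn bd : ℕ} (hbd : 0 < bd) (hbn : 0 < bn) (m k j : ℕ) (hjk : j ≤ k) :
    ee ((bn : ℝ) / bd) m k j * (((k - j).factorial *
        prN (k - j) (fun i => bd * (2 * (m + j) + 1 + i) + bn) * 2 ^ (k - j) : ℕ) : ℝ) =
      ((prN (k - j) (fun i => 2 * j + 2 * i + 1) * bd ^ (k - j) : ℕ) : ℝ) := by
  have hbd' : (0 : ℝ) < bd := by exact_mod_cast hbd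
  have hbn' : (0 : ℝ) < bn := by exact_mod_cast hbn
  clear hjk
  unfold ee
  generalize k - j = n
  have hc : ∀ x : ℝ, x ^ n = ∏ _i ∈ Finset.range n, x := fun x => by simp
  have h1 : ((prN n (fun i => bd * (2 * (m + j) + 1 + i) + bn) : ℕ) : ℝ) =
      pc (al ((bn : ℝ) / bd) (m + j)) n * (bd : ℝ) ^ n := by
    rw [k4_prN, pc, hc, ← Finset.prod_mul_distrib]
    refine Finset.prod_congr rfl fun i _ => ?_
    unfold al
    push_cast
    field_simp
    ring
  have h2 : ((prN n (fun i => 2 * j + 2 * i + 1) : ℕ) : ℝ) =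
      pc (1 / 2 + (j : ℝ)) n * (2 : ℝ) ^ n := by
    rw [k4_prN, pc, hc, ← Finset.prod_mul_distrib]
    refine Finset.prod_congr rfl fun i _ => ?_
    push_cast
    ring
  have hal : 0 < pc (al ((bn : ℝ) / bd) (m + j)) n := by
    refine pc_pos ?_ n
    unfold al
    positivity
  have hf : ((n.factorial : ℕ) : ℝ) ≠ 0 := by exact_mod_cast n.factorial_ne_zero
  rw [Nat.cast_mul, Nat.cast_mul, Nat.cast_mul, h1, h2, Nat.cast_pow, Nat.cast_pow]
  have hal' := hal.ne'
  push_cast
  field_simp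

private theorem k4_iter {N : ℕ} {es : List Pol}
    (hes : ∀ η : ℕ → ℂ, ∃ χ, Mult χ ∧ ∀ k < N, evP χ (nth es k) = η k)
    {h : HD} (h1 : ok1 N es h = true) {j : ℕ} (hj : j ≤ h.J) :
    ∀ p ≤ h.J - j, toE (pP h j p) = dO^[p] (toE (pP h j 0)) := by
  unfold ok1 at h1
  rw [Bool.and_eq_true] at h1
  have hN : h.m + h.J ≤ N := Nat.le_of_ble_eq_true h1.1
  have h2 := (allN_iff.1 h1.2) j (by omega)
  rw [Bool.and_eq_true] at h2
  have h3 := allN_iff.1 h2.1
  have h4 := allN_iff.1 h2.2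
  intro p
  induction p with
  | zero => intro _; rfl
  | succ p ih =>
    intro hp
    rw [Function.iterate_succ_apply', ← ih (by omega)]
    apply va_ext
    intro η
    obtain ⟨χ, hχ, he⟩ := hes η
    have h5 := eqN_ev χ (h4 p (by omega))
    rw [dE_ev hχ he (w := h.m + j + p) (by omega) (h3 p (by omega)),
      vE_ev hχ he (w := h.m + j + (p + 1)) (by omega) (h3 (p + 1) (by omega))] at h5
    exact h5.symm

theorem chain {bn bd N L : ℕ} (hbd : 0 < bd) (hbn : 0 < bn) (hL : 0 < L) {es gs : List Pol}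
    (hes : ∀ η : ℕ → ℂ, ∃ χ, Mult χ ∧ ∀ k < N, evP χ (nth es k) = η k)
    {gp : ℕ → Py} (hg0 : gp 0 = 1) (hgr : ∀ η, RelR (fun k => va η (gp k)) η)
    (hg : gOK es L gs N = true) {h : HD} (h1 : ok1 N es h = true) (h2 : ok2 es h = true)
    (h3 : ok3 es gs h = true) (h4 : ok4 bn bd L h = true) :
    ∀ j ≤ h.J, toE (pP h j 0) = (pd h j : ℝ) •
      Rs ((bn : ℝ) / bd) h.m (fun k => (1 - 2 * (k : ℝ)) • (toE h.Y * gp k)) j := by
  have hiter := fun (j : ℕ) (hj : j ≤ h.J) => k4_iter hes h1 hj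
  unfold ok1 at h1
  rw [Bool.and_eq_true] at h1
  have hN : h.m + h.J ≤ N := Nat.le_of_ble_eq_true h1.1
  have hw : ∀ j ≤ h.J, ∀ p ≤ h.J - j, wE (h.m + j + p) (pP h j p) = true := by
    intro j hj p hp
    have h5 := (allN_iff.1 h1.2) j (by omega)
    rw [Bool.and_eq_true] at h5
    exact allN_iff.1 h5.1 p (by omega)
  unfold ok2 at h2
  rw [Bool.and_eq_true] at h2
  have h3' := allN_iff.1 h3
  have h4' := allN_iff.1 h4
  set K : ℕ → Py := fun k => (1 - 2 * (k : ℝ)) • (toE h.Y * gp k) with hK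
  -- the decomposition as an identity of polynomials
  have hdec : ∀ k ≤ h.J, ((pM h k : ℝ) * (L : ℝ) ^ k) • K k =
      ∑ j ∈ Finset.range (k + 1), (pE h k j : ℝ) • dO^[k - j] (toE (pP h j 0)) := by
    intro k hk
    apply va_ext
    intro η
    obtain ⟨χ, hχ, he⟩ := hes η
    have h5 := eqN_ev χ (h3' k (by omega))
    have hgk := g_sound hχ (g := fun k => va η (gp k)) he (by
      show va η (gp 0) = 1
      rw [hg0, va, map_one]) (hgr η) hL hg k (by omega)
    have hY : evP χ h.YP = va η (toE h.Y) := by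
      rw [eqN_ev χ h2.2, vE_ev hχ he (w := h.m) (by omega) h2.1]
    rw [evP_smulP hχ, evP_mulP hχ, hY, hgk, evP_sumP] at h5
    have h6 : ∀ j ∈ Finset.range (k + 1),
        evP χ (smulP ((pE h k j : ℕ) : ℤ) (vE es (pP h j (k - j)))) =
        (pE h k j : ℂ) * va η (dO^[k - j] (toE (pP h j 0))) := by
      intro j hj
      rw [Finset.mem_range] at hj
      rw [evP_smulP hχ, vE_ev hχ he (w := h.m + j + (k - j)) (by omega)
        (hw j (by omega) (k - j) (by omega)), hiter j (by omega) (k - j) (by omega)]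
      push_cast
      rfl
    rw [Finset.sum_congr rfl h6] at h5
    have h7 : va η (∑ j ∈ Finset.range (k + 1), (pE h k j : ℝ) • dO^[k - j] (toE (pP h j 0))) =
        ∑ j ∈ Finset.range (k + 1), (pE h k j : ℂ) * va η (dO^[k - j] (toE (pP h j 0))) := by
      unfold va
      rw [map_sum]
      refine Finset.sum_congr rfl fun j _ => ?_
      rw [map_smul, Complex.real_smul]
      push_cast
      rfl
    rw [h7, ← h5, hK]
    unfold va
    simp only [map_smul, map_mul, Complex.real_smul]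
    push_cast
    ring
  intro k
  induction k using Nat.strong_induction_on with
  | _ k ih =>
  intro hk
  have h5 := h4' k (by omega)
  rw [Bool.and_eq_true, Bool.and_eq_true] at h5
  have hM : 1 ≤ pM h k := Nat.le_of_ble_eq_true h5.1
  have h6 := allN_iff.1 h5.2.2
  -- the coefficients
  have hco : ∀ j ≤ k, (pE h k j : ℝ) * (pd h j : ℝ) =
      (pM h k : ℝ) * (L : ℝ) ^ k * ee ((bn : ℝ) / bd) h.m k j := by
    intro j hj
    have h7 := Nat.eq_of_beq_eq_true (h6 j (by omega))
    have h8 := ee_eq hbd hbn h.m k j hj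
    have hbd' : (0 : ℝ) < bd := by exact_mod_cast hbd
    have hbn' : (0 : ℝ) < bn := by exact_mod_cast hbn
    have hD : (0 : ℝ) < (((k - j).factorial *
        prN (k - j) (fun i => bd * (2 * (h.m + j) + 1 + i) + bn) * 2 ^ (k - j) : ℕ) : ℝ) := by
      rw [Nat.cast_mul, Nat.cast_mul, k4_prN]
      have e1 : (0 : ℝ) < ((k - j).factorial : ℕ) := by exact_mod_cast (k - j).factorial_pos
      have e2 : (0 : ℝ) < ∏ i ∈ Finset.range (k - j),
          ((bd * (2 * (h.m + j) + 1 + i) + bn : ℕ) : ℝ) :=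
        Finset.prod_pos fun i _ => by
          have : 0 < bd * (2 * (h.m + j) + 1 + i) + bn := by positivity
          exact_mod_cast this
      have e3 : (0 : ℝ) < ((2 ^ (k - j) : ℕ) : ℝ) := by positivity
      exact mul_pos (mul_pos e1 e2) e3
    have h9 : ((pE h k j * pd h j * ((k - j).factorial *
        prN (k - j) (fun i => bd * (2 * (h.m + j) + 1 + i) + bn) * 2 ^ (k - j)) : ℕ) : ℝ) =
        ((pM h k * L ^ k * (prN (k - j) (fun i => 2 * j + 2 * i + 1) * bd ^ (k - j)) : ℕ) : ℝ) := by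
      exact_mod_cast h7
    rw [Nat.cast_mul, Nat.cast_mul (pM h k * L ^ k), ← h8, ← mul_assoc] at h9
    have h10 := mul_right_cancel₀ hD.ne' h9
    rw [Nat.cast_mul, Nat.cast_mul, Nat.cast_pow] at h10
    exact h10
  have hLk : (0 : ℝ) < (pM h k : ℝ) * (L : ℝ) ^ k := by
    have e1 : (0 : ℝ) < pM h k := by exact_mod_cast hM
    have e2 : (0 : ℝ) < L := by exact_mod_cast hL
    positivity
  have hkk := hco k le_rfl
  have hee : ee ((bn : ℝ) / bd) h.m k k = 1 := by
    unfold ee pc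
    simp
  rw [hee, mul_one] at hkk
  have hE : (pE h k k : ℝ) ≠ 0 := by
    intro h0
    rw [h0, zero_mul] at hkk
    exact hLk.ne hkk
  have h7 := hdec k hk
  rw [Finset.sum_range_succ, Nat.sub_self, Function.iterate_zero, id] at h7
  have h8 : ∑ j ∈ Finset.range k, (pE h k j : ℝ) • dO^[k - j] (toE (pP h j 0)) =
      ((pM h k : ℝ) * (L : ℝ) ^ k) • ∑ j ∈ Finset.range k,
        ee ((bn : ℝ) / bd) h.m k j • dO^[k - j] (Rs ((bn : ℝ) / bd) h.m K j) := by
    rw [Finset.smul_sum]
    refine Finset.sum_congr rfl fun j hj => ?_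
    rw [Finset.mem_range] at hj
    rw [ih j hj (by omega), dO_iter_smul, smul_smul, hco j hj.le, smul_smul]
  rw [h8, Rs_eq ((bn : ℝ) / bd) h.m K k, smul_add, add_comm] at h7
  have h9 := add_left_cancel h7
  rw [← hkk, ← smul_smul] at h9
  exact (smul_right_injective _ hE h9).symm

end Pool.Agent.H5.HT
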