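import Pool.Agent.H5.HT.KDef
import Pool.Agent.H58.BJ.C0

/-!
# Project HT, row K3: lower bounds of the constants
-/

set_option autoImplicit false

namespace Pool.Agent.H5.HT

open Pool.Agent.H58.BJ
open scoped ComplexConjugate

/-- The numbers `pc (1/2+j) l ^ 2 / (l! pc α l)`. -/
noncomputable def k3_U (β : ℝ) (m j l : ℕ) : ℝ :=
  pc (1 / 2 + (j : ℝ)) l ^ 2 / (l.factorial * pc (al β (m + j)) l)

theorem k3_pc_succ (x : ℝ) (n : ℕ) : pc x (n + 1) = pc x n * (x + n) := by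
  unfold pc
  rw [Finset.prod_range_succ]

theorem k3_pc_pos {x : ℝ} (hx : 0 < x) (n : ℕ) : 0 < pc x n := by
  unfold pc
  exact Finset.prod_pos fun i _ => by positivity

theorem k3_U_zero (β : ℝ) (m j : ℕ) : k3_U β m j 0 = 1 := by
  simp [k3_U, pc]

theorem k3_al_pos {bn bd : ℕ} (hbd : 0 < bd) (k : ℕ) : 0 < al ((bn : ℝ) / bd) k := by
  unfold al
  positivity

theorem k3_U_nonneg {bn bd : ℕ} (hbd : 0 < bd) (m j l : ℕ) :
    0 ≤ k3_U ((bn : ℝ) / bd) m j l := by
  unfold k3_U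
  have := k3_pc_pos (k3_al_pos (bn := bn) hbd (m + j)) l
  positivity

theorem k3_U_succ {bn bd : ℕ} (hbd : 0 < bd) (m j l : ℕ) :
    k3_U ((bn : ℝ) / bd) m j (l + 1) = k3_U ((bn : ℝ) / bd) m j l *
      (((2 * j + 2 * l + 1) ^ 2 * bd : ℕ) : ℝ) /
        ((4 * (l + 1) * (bd * (2 * (m + j) + 1 + l) + bn) : ℕ) : ℝ) := by
  have h1 := k3_pc_pos (k3_al_pos (bn := bn) hbd (m + j)) l
  have hbd' : (0 : ℝ) < bd := by exact_mod_cast hbd
  unfold k3_U
  rw [k3_pc_succ, k3_pc_succ, Nat.factorial_succ]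
  have h2 : al ((bn : ℝ) / bd) (m + j) + l =
      ((bd * (2 * (m + j) + 1 + l) + bn : ℕ) : ℝ) / bd := by
    unfold al
    push_cast
    field_simp
    ring
  rw [h2]
  have h3 : (0 : ℝ) < ((bd * (2 * (m + j) + 1 + l) + bn : ℕ) : ℝ) := by
    have : 0 < bd * (2 * (m + j) + 1 + l) + bn := by positivity
    exact_mod_cast this
  rw [Nat.cast_mul (4 * (l + 1)) (bd * (2 * (m + j) + 1 + l) + bn)]
  have h4 : (0 : ℝ) < (l.factorial : ℝ) := by exact_mod_cast Nat.factorial_pos l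
  set E : ℝ := ((bd * (2 * (m + j) + 1 + l) + bn : ℕ) : ℝ) with hE
  set P : ℝ := pc (1 / 2 + (j : ℝ)) l with hP
  set Q : ℝ := pc (al ((bn : ℝ) / bd) (m + j)) l with hQ
  push_cast
  field_simp
  ring

theorem k3_main {bn bd : ℕ} (hbd : 0 < bd) (m j S : ℕ) (n : ℕ) : ∀ l u s : ℕ,
    (u : ℝ) ≤ S * k3_U ((bn : ℝ) / bd) m j l →
    (csG bn bd m j n l u s : ℝ) ≤ s + S * ∑ i ∈ Finset.range n,
      k3_U ((bn : ℝ) / bd) m j (l + i + 1) / (2 * (j + l + i : ℕ) + 1) := by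
  induction n with
  | zero =>
    intro l u s _
    simp [csG]
  | succ n ih =>
    intro l u s hu
    set u' : ℕ := u * (2 * j + 2 * l + 1) ^ 2 * bd /
        (4 * (l + 1) * (bd * (2 * (m + j) + 1 + l) + bn)) with hu'
    set s' : ℕ := s + u' / (2 * (j + l) + 1) with hs'
    have h0 : csG bn bd m j (n + 1) l u s = csG bn bd m j n (l + 1) u' s' := by
      change fN (u * (2 * j + 2 * l + 1) ^ 2 * bd /
        (4 * (l + 1) * (bd * (2 * (m + j) + 1 + l) + bn))) (fun u' =>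
          fN (s + u' / (2 * (j + l) + 1)) fun s' => fN (l + 1) fun l' =>
            csG bn bd m j n l' u' s') = _
      rw [fN_eq, fN_eq, fN_eq]
    have h1 : (u' : ℝ) ≤ S * k3_U ((bn : ℝ) / bd) m j (l + 1) := by
      calc (u' : ℝ) ≤ ((u * (2 * j + 2 * l + 1) ^ 2 * bd : ℕ) : ℝ) /
            ((4 * (l + 1) * (bd * (2 * (m + j) + 1 + l) + bn) : ℕ) : ℝ) := Nat.cast_div_le
        _ = (u : ℝ) * ((((2 * j + 2 * l + 1) ^ 2 * bd : ℕ) : ℝ) /
            ((4 * (l + 1) * (bd * (2 * (m + j) + 1 + l) + bn) : ℕ) : ℝ)) := by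
          rw [mul_assoc, Nat.cast_mul, mul_div_assoc]
        _ ≤ S * k3_U ((bn : ℝ) / bd) m j l * ((((2 * j + 2 * l + 1) ^ 2 * bd : ℕ) : ℝ) /
            ((4 * (l + 1) * (bd * (2 * (m + j) + 1 + l) + bn) : ℕ) : ℝ)) :=
          mul_le_mul_of_nonneg_right hu (by positivity)
        _ = S * k3_U ((bn : ℝ) / bd) m j (l + 1) := by
          rw [k3_U_succ hbd]
          ring
    have h2 : (s' : ℝ) ≤ s + S * (k3_U ((bn : ℝ) / bd) m j (l + 1) / (2 * (j + l : ℕ) + 1)) := by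
      have h3 : ((u' / (2 * (j + l) + 1) : ℕ) : ℝ) ≤ (u' : ℝ) / ((2 * (j + l) + 1 : ℕ) : ℝ) :=
        Nat.cast_div_le
      have h4 : (u' : ℝ) / ((2 * (j + l) + 1 : ℕ) : ℝ) ≤
          S * k3_U ((bn : ℝ) / bd) m j (l + 1) / ((2 * (j + l) + 1 : ℕ) : ℝ) :=
        div_le_div_of_nonneg_right h1 (by positivity)
      rw [hs']
      push_cast at h3 h4 ⊢
      rw [mul_div_assoc] at h4
      linarith
    rw [h0]
    refine (ih (l + 1) u' s' h1).trans ?_
    rw [Finset.sum_range_succ', mul_add]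
    have h5 : ∀ i : ℕ, k3_U ((bn : ℝ) / bd) m j (l + 1 + i + 1) / (2 * (j + (l + 1) + i : ℕ) + 1) =
        k3_U ((bn : ℝ) / bd) m j (l + (i + 1) + 1) / (2 * (j + l + (i + 1) : ℕ) + 1) := by
      intro i
      rw [show l + 1 + i + 1 = l + (i + 1) + 1 by ring, show j + (l + 1) + i = j + l + (i + 1) by ring]
    simp only [h5]
    simp only [add_zero]
    linarith

theorem csL_le {bn bd : ℕ} (hbd : 0 < bd) (hbn : 0 < bn) (m M j S : ℕ) (hj : j ≤ M) :
    (csL bn bd m M j S : ℝ) ≤ S * Cs ((bn : ℝ) / bd) m M j := by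
  have hterm : ∀ n : ℕ, pc (1 / 2 + (j : ℝ)) (n - j) ^ 2 /
      ((2 * (n : ℝ) - 1) * (n - j).factorial * pc (al ((bn : ℝ) / bd) (m + j)) (n - j)) =
      k3_U ((bn : ℝ) / bd) m j (n - j) / (2 * (n : ℝ) - 1) := by
    intro n
    unfold k3_U
    rw [div_div]
    congr 1
    ring
  have hmain := k3_main (bn := bn) hbd m j S (M - j) 0 S
    (bif Nat.beq j 0 then 0 else S / (2 * j - 1)) (by rw [k3_U_zero, mul_one])
  have hCs : Cs ((bn : ℝ) / bd) m M j = (if j = 0 then 0 else 1 / (2 * (j : ℝ) - 1)) +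
      ∑ i ∈ Finset.range (M - j), k3_U ((bn : ℝ) / bd) m j (0 + i + 1) /
        (2 * (j + 0 + i : ℕ) + 1) := by
    unfold Cs
    simp only [hterm]
    have h6 : ∑ n ∈ Finset.Icc (j + 1) M, k3_U ((bn : ℝ) / bd) m j (n - j) / (2 * (n : ℝ) - 1) =
        ∑ i ∈ Finset.range (M - j), k3_U ((bn : ℝ) / bd) m j (0 + i + 1) /
        (2 * (j + 0 + i : ℕ) + 1) := by
      have h7 : Finset.Icc (j + 1) M = Finset.Ico (j + 1) (M + 1) := by
        ext x; simp [Finset.mem_Icc, Finset.mem_Ico]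
      rw [h7, Finset.sum_Ico_eq_sum_range, show M + 1 - (j + 1) = M - j by omega]
      refine Finset.sum_congr rfl fun i _ => ?_
      rw [show j + 1 + i - j = 0 + i + 1 by omega]
      push_cast
      congr 1
      ring
    split_ifs with h0
    · subst h0
      rw [← h6, zero_add]
      rfl
    · have h8 : Finset.Ioc j M = Finset.Icc (j + 1) M := by
        ext x
        simp [Nat.succ_le_iff]
      rw [show max j 1 = j by omega, ← Finset.add_sum_Ioc_eq_sum_Icc hj, h8, h6, Nat.sub_self,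
        k3_U_zero]
  have hs0 : ((bif Nat.beq j 0 then 0 else S / (2 * j - 1) : ℕ) : ℝ) ≤
      S * (if j = 0 then 0 else 1 / (2 * (j : ℝ) - 1)) := by
    rcases Nat.eq_zero_or_pos j with h0 | h0
    · subst h0
      simp
    · have hb : Nat.beq j 0 = false := by
        cases j with
        | zero => omega
        | succ j => rfl
      rw [hb, cond_false, if_neg (by omega)]
      refine Nat.cast_div_le.trans ?_
      rw [Nat.cast_sub (by omega)]
      push_cast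
      rw [mul_one_div]
  unfold csL
  refine hmain.trans ?_
  rw [hCs, mul_add]
  linarith

end Pool.Agent.H5.HT
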