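import Pool.Agent.H58.BJ.Def

/-!
# Project HT: definitions

Tail-summed area inequalities for the jet certificate of project BJ.
Polynomials in the jets are elements of `MvPolynomial ℕ ℝ`, the variable `k` stands for `η_k`.
-/

set_option autoImplicit false

namespace Pool.Agent.H5.HT

open Pool.Agent.H58.BJ
open scoped ComplexConjugate

/-- polynomials in the jets -/
abbrev Py := MvPolynomial ℕ ℝ

/-- the weights: `η_k` has weight `k + 1` -/
def wf (k : ℕ) : ℕ := k + 1

/-- homogeneous polynomials of weight `w` -/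
def HW (w : ℕ) (p : Py) : Prop := MvPolynomial.IsWeightedHomogeneous wf p w

/-- the derivation `δ η_k = (k+1) η_{k+1}` -/
noncomputable def dl : Derivation ℝ Py Py :=
  MvPolynomial.mkDerivation ℝ fun k : ℕ => ((k : ℝ) + 1) • (MvPolynomial.X (k + 1) : Py)

/-- `D' p = - η_0 p + δ p` -/
noncomputable def dO (p : Py) : Py := -(MvPolynomial.X 0 * p) + dl p

/-- value at a sequence of jets -/
noncomputable def va (η : ℕ → ℂ) (p : Py) : ℂ := MvPolynomial.aeval η p

/-- real part of `p conj q` -/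
noncomputable def ip (p q : Py) (η : ℕ → ℂ) : ℝ := (va η p * conj (va η q)).re

/-- equality up to a form `G` -/
def Eqv (β : ℝ) (F H : (ℕ → ℂ) → ℝ) : Prop :=
  ∃ μ : Mu, ∀ η, F η - H η = (G β μ η).re

/-- rising factorial -/
noncomputable def pc (x : ℝ) (n : ℕ) : ℝ := ∏ i ∈ Finset.range n, (x + i)

/-- `α_j = 2 (m + j) + β + 1` for `k = m + j` -/
noncomputable def al (β : ℝ) (k : ℕ) : ℝ := 2 * k + β + 1

/-- `∑_p C(l,p) / (α)_p D'^p` -/
noncomputable def Lg (α : ℝ) (l : ℕ) (p : Py) : Py :=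
  ∑ k ∈ Finset.range (l + 1), ((l.choose k : ℝ) / pc α k) • dO^[k] p

/-- coefficients of the decomposition of `K_k` -/
noncomputable def ee (β : ℝ) (m k j : ℕ) : ℝ :=
  pc (1 / 2 + j) (k - j) / ((k - j).factorial * pc (al β (m + j)) (k - j))

/-- the quasi-primary parts `R_j` of a sequence `K_k` -/
noncomputable def Rs (β : ℝ) (m : ℕ) (K : ℕ → Py) : ℕ → Py :=
  fun k => Nat.strongRec (motive := fun _ => Py)
    (fun k ih => K k - ∑ j : Fin k, ee β m k j • dO^[k - j] (ih j j.2)) k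

/-- coefficients of `Y c_n` with respect to the `K_k` -/
noncomputable def bb (n k : ℕ) : ℝ :=
  -(pc ((k : ℝ) - 1 / 2) (n - k) / ((2 * (k : ℝ) - 1) * (n - k).factorial))

/-- coefficients of `Y c_n` with respect to the `R_j` -/
noncomputable def ta (n j : ℕ) : ℝ :=
  -(pc (1 / 2 + (j : ℝ)) (n - j) / ((2 * (n : ℝ) - 1) * (n - j).factorial))

/-- `1 - γ_m` and the constants `C_{m,j}`; sum over `n ≤ M` -/
noncomputable def Cs (β : ℝ) (m M j : ℕ) : ℝ :=
  ∑ n ∈ Finset.Icc (max j 1) M,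
    pc (1 / 2 + (j : ℝ)) (n - j) ^ 2 /
      ((2 * (n : ℝ) - 1) * (n - j).factorial * pc (al β (m + j)) (n - j))

/-- coefficients of `(1-ζ)^{-a} g(ζ/(1-ζ))` -/
noncomputable def Sb (a : ℝ) (g : ℕ → ℂ) (n : ℕ) : ℂ :=
  ∑ k ∈ Finset.range (n + 1), ((pc ((k : ℝ) + a) (n - k) / (n - k).factorial : ℝ) : ℂ) * g k

/-- Cauchy product -/
noncomputable def cp (g h : ℕ → ℂ) (n : ℕ) : ℂ := ∑ i ∈ Finset.range (n + 1), g i * h (n - i)

end Pool.Agent.H5.HT
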