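import Pool.Agent.H5.HT.Alg

/-!
# Project HT, row A2: calculus of the relation `Eqv`
-/

set_option autoImplicit false

namespace Pool.Agent.H5.HT

open Pool.Agent.H58.BJ
open scoped ComplexConjugate

theorem a2_G_nil (β : ℝ) (η : ℕ → ℂ) : G β [] η = 0 := by
  simp [G]

theorem a2_G_append (β : ℝ) (μ ν : Mu) (η : ℕ → ℂ) : G β (μ ++ ν) η = G β μ η + G β ν η := by
  simp only [G, List.map_append, List.sum_append]

theorem a2_G_cons (β : ℝ) (t : List ℕ × List ℕ × ℝ) (μ : Mu) (η : ℕ → ℂ) :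
    G β (t :: μ) η = (t.2.2 : ℂ) * (DX η t.1 * conj (X η t.2.1) +
      (((wt t.1 : ℝ) + wt t.2.1 + β : ℝ) : ℂ) * (X η t.1 * conj (X η t.2.1))) + G β μ η := by
  simp only [G, List.map_cons, List.sum_cons]

theorem a2_G_smul (β a : ℝ) (μ : Mu) (η : ℕ → ℂ) :
    G β (μ.map fun t => (t.1, t.2.1, a * t.2.2)) η = (a : ℂ) * G β μ η := by
  induction μ with
  | nil => simp [a2_G_nil]
  | cons t μ ih =>
    rw [List.map_cons, a2_G_cons, a2_G_cons, ih]
    push_cast
    ring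

theorem Eqv_refl (β : ℝ) (F : (ℕ → ℂ) → ℝ) : Eqv β F F :=
  ⟨[], fun η => by rw [a2_G_nil, sub_self, Complex.zero_re]⟩

theorem Eqv_trans {β : ℝ} {F H K : (ℕ → ℂ) → ℝ} (h : Eqv β F H) (h' : Eqv β H K) :
    Eqv β F K := by
  obtain ⟨μ, hμ⟩ := h
  obtain ⟨ν, hν⟩ := h'
  refine ⟨μ ++ ν, fun η => ?_⟩
  rw [a2_G_append, Complex.add_re, ← hμ, ← hν]
  ring

theorem Eqv_smul {β : ℝ} {F H : (ℕ → ℂ) → ℝ} (a : ℝ) (h : Eqv β F H) :
    Eqv β (fun η => a * F η) (fun η => a * H η) := by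
  obtain ⟨μ, hμ⟩ := h
  refine ⟨μ.map fun t => (t.1, t.2.1, a * t.2.2), fun η => ?_⟩
  rw [a2_G_smul, Complex.re_ofReal_mul, ← hμ]
  ring

theorem Eqv_sum {β : ℝ} {ι : Type} (s : Finset ι) {F H : ι → (ℕ → ℂ) → ℝ}
    (h : ∀ i ∈ s, Eqv β (F i) (H i)) :
    Eqv β (fun η => ∑ i ∈ s, F i η) (fun η => ∑ i ∈ s, H i η) := by
  classical
  induction s using Finset.induction_on with
  | empty => exact ⟨[], fun η => by simp [a2_G_nil]⟩
  | insert i s hi ih =>
    obtain ⟨μ, hμ⟩ := h i (Finset.mem_insert_self i s)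
    obtain ⟨ν, hν⟩ := ih fun j hj => h j (Finset.mem_insert_of_mem hj)
    refine ⟨μ ++ ν, fun η => ?_⟩
    rw [a2_G_append, Complex.add_re, ← hμ, ← hν]
    simp only [Finset.sum_insert hi]
    ring

theorem a2_dO_zero : dO 0 = 0 := by
  simp [dO]

theorem a2_dO_add (p q : Py) : dO (p + q) = dO p + dO q := by
  unfold dO
  rw [map_add]
  ring

theorem a2_dO_smul (a : ℝ) (p : Py) : dO (a • p) = a • dO p := by
  unfold dO
  rw [Derivation.map_smul, mul_smul_comm, smul_add, smul_neg]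

theorem a2_va (η : ℕ → ℂ) (L : List (ℝ × List ℕ)) :
    va η ((L.map fun x => x.1 • (x.2.map fun k => (MvPolynomial.X k : Py)).prod).sum) =
      (L.map fun x => (x.1 : ℂ) * X η x.2).sum ∧
    va η (dO ((L.map fun x => x.1 • (x.2.map fun k => (MvPolynomial.X k : Py)).prod).sum)) =
      (L.map fun x => (x.1 : ℂ) * DX η x.2).sum := by
  induction L with
  | nil => simp [va, a2_dO_zero]
  | cons x L ih =>
    obtain ⟨h1, h2⟩ := va_list η x.2
    constructor
    · rw [List.map_cons, List.sum_cons, List.map_cons, List.sum_cons, ← ih.1, ← h1]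
      simp only [va, map_add, map_smul, Complex.real_smul]
    · rw [List.map_cons, List.sum_cons, List.map_cons, List.sum_cons, ← ih.2, ← h2, a2_dO_add,
        a2_dO_smul]
      simp only [va, map_add, map_smul, Complex.real_smul]

theorem a2_G_one (β : ℝ) (η : ℕ → ℂ) (a b : ℕ) (x : ℝ × List ℕ) (hx : wt x.2 = a)
    (L : List (ℝ × List ℕ)) (hL : ∀ y ∈ L, wt y.2 = b) :
    G β (L.map fun y => (x.2, y.2, x.1 * y.1)) η =
      ((x.1 : ℂ) * DX η x.2) * conj ((L.map fun y => (y.1 : ℂ) * X η y.2).sum) +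
      ((a : ℂ) + b + β) * (((x.1 : ℂ) * X η x.2) *
        conj ((L.map fun y => (y.1 : ℂ) * X η y.2).sum)) := by
  induction L with
  | nil => simp [a2_G_nil]
  | cons y L ih =>
    rw [List.map_cons, a2_G_cons, ih fun z hz => hL z (List.mem_cons_of_mem _ hz),
      List.map_cons, List.sum_cons, map_add, map_mul, Complex.conj_ofReal]
    simp only [hx, hL y List.mem_cons_self]
    push_cast
    ring

theorem a2_G_two (β : ℝ) (η : ℕ → ℂ) (a b : ℕ) (L' : List (ℝ × List ℕ))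
    (hL' : ∀ y ∈ L', wt y.2 = b) (L : List (ℝ × List ℕ)) (hL : ∀ x ∈ L, wt x.2 = a) :
    G β (L.flatMap fun x => L'.map fun y => (x.2, y.2, x.1 * y.1)) η =
      (L.map fun x => (x.1 : ℂ) * DX η x.2).sum *
        conj ((L'.map fun y => (y.1 : ℂ) * X η y.2).sum) +
      ((a : ℂ) + b + β) * ((L.map fun x => (x.1 : ℂ) * X η x.2).sum *
        conj ((L'.map fun y => (y.1 : ℂ) * X η y.2).sum)) := by
  induction L with
  | nil => simp [a2_G_nil]
  | cons x L ih =>
    rw [List.flatMap_cons, a2_G_append, ih fun z hz => hL z (List.mem_cons_of_mem _ hz),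
      a2_G_one β η a b x (hL x List.mem_cons_self) L' hL', List.map_cons, List.sum_cons,
      List.map_cons, List.sum_cons]
    ring

theorem Eqv_null {β : ℝ} {a b : ℕ} {p q : Py} (hp : HW a p) (hq : HW b q) :
    Eqv β (ip (dO p) q) (fun η => -((a : ℝ) + b + β) * ip p q η) := by
  obtain ⟨L, hL, rfl⟩ := HW_list hp
  obtain ⟨L', hL', rfl⟩ := HW_list hq
  refine ⟨L.flatMap fun x => L'.map fun y => (x.2, y.2, x.1 * y.1), fun η => ?_⟩
  rw [a2_G_two β η a b L' hL' L hL]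
  unfold ip
  beta_reduce
  rw [(a2_va η L).1, (a2_va η L).2, (a2_va η L').1, Complex.add_re]
  have h : ((a : ℂ) + b + β) = (((a : ℝ) + b + β : ℝ) : ℂ) := by push_cast; rfl
  rw [h, Complex.re_ofReal_mul]
  ring

end Pool.Agent.H5.HT
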