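import Pool.Agent.H5.HT.Alg
import Pool.Agent.H5.HT.Eq

/-!
# Project HT: iterates of `D'`
-/

set_option autoImplicit false

namespace Pool.Agent.H5.HT

open Pool.Agent.H58.BJ
open scoped ComplexConjugate

theorem ip_comm (p q : Py) (η : ℕ → ℂ) : ip p q η = ip q p η := by
  simp only [ip, Complex.mul_re, Complex.conj_re, Complex.conj_im]
  ring

theorem ip_sum_left {ι : Type} (s : Finset ι) (f : ι → Py) (q : Py) (η : ℕ → ℂ) :
    ip (∑ i ∈ s, f i) q η = ∑ i ∈ s, ip (f i) q η := by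
  simp only [ip, va]
  rw [map_sum, Finset.sum_mul, Complex.re_sum]

theorem ip_smul_left (a : ℝ) (p q : Py) (η : ℕ → ℂ) : ip (a • p) q η = a * ip p q η := by
  simp only [ip, va]
  rw [map_smul, smul_mul_assoc, Complex.smul_re, smul_eq_mul]

theorem a3_pc_succ (x : ℝ) (n : ℕ) : pc x (n + 1) = pc x n * (x + n) := by
  rw [pc, pc, Finset.prod_range_succ]

theorem a3_pc_add (x : ℝ) (k l : ℕ) : pc x (k + l) = pc x l * pc (x + l) k := by
  induction k with
  | zero => simp [pc]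
  | succ k ih =>
    rw [show k + 1 + l = (k + l) + 1 by ring, a3_pc_succ, a3_pc_succ, ih]
    push_cast
    ring

theorem a3_left {β : ℝ} {a b : ℕ} {p q : Py} (hp : HW a p) (hq : HW b q) (k : ℕ) :
    Eqv β (ip (dO^[k] p) q) (fun η => (-1) ^ k * pc ((a : ℝ) + b + β) k * ip p q η) := by
  induction k with
  | zero =>
    have h : (fun η => (-1 : ℝ) ^ 0 * pc ((a : ℝ) + b + β) 0 * ip p q η) = ip p q := by
      funext η
      simp [pc]
    rw [h]
    exact Eqv_refl β _
  | succ k ih =>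
    rw [Function.iterate_succ_apply']
    have h1 := Eqv_null (β := β) (HW_dO_iter hp k) hq
    have h2 := Eqv_smul (-(((a + k : ℕ) : ℝ) + b + β)) ih
    refine Eqv_trans h1 ?_
    have h3 : (fun η => (-1 : ℝ) ^ (k + 1) * pc ((a : ℝ) + b + β) (k + 1) * ip p q η) =
        fun η => -(((a + k : ℕ) : ℝ) + b + β) * ((-1) ^ k * pc ((a : ℝ) + b + β) k * ip p q η) := by
      funext η
      rw [a3_pc_succ]
      push_cast
      ring
    rw [h3]
    exact h2

/-- uses A1, A2 -/
theorem Eqv_iter {β : ℝ} {a b : ℕ} {p q : Py} (hp : HW a p) (hq : HW b q) (k l : ℕ) :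
    Eqv β (ip (dO^[k] p) (dO^[l] q))
      (fun η => (-1) ^ (k + l) * pc ((a : ℝ) + b + β) (k + l) * ip p q η) := by
  have h1 := a3_left (β := β) hp (HW_dO_iter hq l) k
  refine Eqv_trans h1 ?_
  have h2 := Eqv_smul ((-1) ^ k * pc ((a : ℝ) + (b + l : ℕ) + β) k) (a3_left (β := β) hq hp l)
  have h3 : (fun η => (-1) ^ k * pc ((a : ℝ) + (b + l : ℕ) + β) k * ip p (dO^[l] q) η) =
      fun η => (-1) ^ k * pc ((a : ℝ) + (b + l : ℕ) + β) k * ip (dO^[l] q) p η := by
    funext η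
    rw [ip_comm]
  have h4 : (fun η => (-1) ^ (k + l) * pc ((a : ℝ) + b + β) (k + l) * ip p q η) =
      fun η => (-1) ^ k * pc ((a : ℝ) + (b + l : ℕ) + β) k *
        ((-1) ^ l * pc ((b : ℝ) + a + β) l * ip q p η) := by
    funext η
    rw [a3_pc_add, ip_comm p q, pow_add, show (a : ℝ) + b + β + l = (a : ℝ) + (b + l : ℕ) + β by
      push_cast; ring, show (a : ℝ) + b + β = (b : ℝ) + a + β by ring]
    ring
  rw [h3, h4]
  exact h2

end Pool.Agent.H5.HT
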