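import Pool.Agent.H5.HT.Eq
import Pool.Agent.H5.HT.Iter
import Pool.Agent.H5.HT.Vand

/-!
# Project HT: orthogonality of the levels

`Lg_orth` (different levels are orthogonal up to a form `G`) and `Lg_norm`.
-/

set_option autoImplicit false

namespace Pool.Agent.H5.HT

open Pool.Agent.H58.BJ
open scoped ComplexConjugate

/-- expansion of the product of two levels -/
theorem a5_exp (α α' : ℝ) (l l' : ℕ) (p q : Py) (η : ℕ → ℂ) :
    ip (Lg α l p) (Lg α' l' q) η =
      ∑ s ∈ Finset.range (l' + 1), ∑ t ∈ Finset.range (l + 1),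
        ((l'.choose s : ℝ) / pc α' s * ((l.choose t : ℝ) / pc α t)) *
          ip (dO^[t] p) (dO^[s] q) η := by
  unfold Lg
  rw [ip_comm, ip_sum_left]
  refine Finset.sum_congr rfl fun s _ => ?_
  rw [ip_smul_left, ip_comm, ip_sum_left, Finset.mul_sum]
  refine Finset.sum_congr rfl fun t _ => ?_
  rw [ip_smul_left]
  ring

/-- the product of two levels up to a form `G` -/
theorem a5_key {β : ℝ} {a b : ℕ} {p q : Py} (hp : HW a p) (hq : HW b q) {α α' : ℝ}
    (hα : 0 < α) (l l' : ℕ) :
    Eqv β (ip (Lg α l p) (Lg α' l' q))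
      (fun η => ∑ s ∈ Finset.range (l' + 1),
        ((l'.choose s : ℝ) / pc α' s * ((-1) ^ s * pc ((a : ℝ) + b + β) s) *
          (pc (α - ((a : ℝ) + b + β) - s) l / pc α l)) * ip p q η) := by
  have h1 : Eqv β (fun η => ∑ s ∈ Finset.range (l' + 1), ∑ t ∈ Finset.range (l + 1),
        ((l'.choose s : ℝ) / pc α' s * ((l.choose t : ℝ) / pc α t)) *
          ip (dO^[t] p) (dO^[s] q) η)
      (fun η => ∑ s ∈ Finset.range (l' + 1), ∑ t ∈ Finset.range (l + 1),
        ((l'.choose s : ℝ) / pc α' s * ((l.choose t : ℝ) / pc α t)) *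
          ((-1) ^ (t + s) * pc ((a : ℝ) + b + β) (t + s) * ip p q η)) := by
    refine Eqv_sum (F := fun s η => ∑ t ∈ Finset.range (l + 1),
        ((l'.choose s : ℝ) / pc α' s * ((l.choose t : ℝ) / pc α t)) *
          ip (dO^[t] p) (dO^[s] q) η)
      (H := fun s η => ∑ t ∈ Finset.range (l + 1),
        ((l'.choose s : ℝ) / pc α' s * ((l.choose t : ℝ) / pc α t)) *
          ((-1) ^ (t + s) * pc ((a : ℝ) + b + β) (t + s) * ip p q η)) _ fun s _ => ?_
    refine Eqv_sum (F := fun t η =>
        ((l'.choose s : ℝ) / pc α' s * ((l.choose t : ℝ) / pc α t)) *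
          ip (dO^[t] p) (dO^[s] q) η)
      (H := fun t η =>
        ((l'.choose s : ℝ) / pc α' s * ((l.choose t : ℝ) / pc α t)) *
          ((-1) ^ (t + s) * pc ((a : ℝ) + b + β) (t + s) * ip p q η)) _ fun t _ => ?_
    exact Eqv_smul _ (Eqv_iter hp hq t s)
  have e1 : (ip (Lg α l p) (Lg α' l' q)) =
      (fun η => ∑ s ∈ Finset.range (l' + 1), ∑ t ∈ Finset.range (l + 1),
        ((l'.choose s : ℝ) / pc α' s * ((l.choose t : ℝ) / pc α t)) *
          ip (dO^[t] p) (dO^[s] q) η) := by
    funext η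
    exact a5_exp α α' l l' p q η
  have e2 : (fun η => ∑ s ∈ Finset.range (l' + 1), ∑ t ∈ Finset.range (l + 1),
        ((l'.choose s : ℝ) / pc α' s * ((l.choose t : ℝ) / pc α t)) *
          ((-1) ^ (t + s) * pc ((a : ℝ) + b + β) (t + s) * ip p q η)) =
      (fun η => ∑ s ∈ Finset.range (l' + 1),
        ((l'.choose s : ℝ) / pc α' s * ((-1) ^ s * pc ((a : ℝ) + b + β) s) *
          (pc (α - ((a : ℝ) + b + β) - s) l / pc α l)) * ip p q η) := by
    funext η
    refine Finset.sum_congr rfl fun s _ => ?_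
    have h3 := vand hα ((a : ℝ) + b + β + s) l
    rw [show α - ((a : ℝ) + b + β) - s = α - ((a : ℝ) + b + β + s) by ring, ← h3,
      Finset.mul_sum, Finset.sum_mul]
    refine Finset.sum_congr rfl fun t _ => ?_
    rw [show t + s = s + t by ring, pc_add, pow_add]
    ring
  rw [e1, ← e2]
  exact h1

/-- different levels are orthogonal -/
theorem Lg_orth {β : ℝ} (hβ : 0 < β) {i j n : ℕ} (hij : i < j) (hjn : j ≤ n) (m : ℕ) {p q : Py}
    (hp : HW (m + i) p) (hq : HW (m + j) q) :
    Eqv β (ip (Lg (al β (m + i)) (n - i) p) (Lg (al β (m + j)) (n - j) q)) (fun _ => 0) := by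
  have hα : 0 < al β (m + i) := by
    unfold al
    positivity
  have h := a5_key (β := β) hp hq (α := al β (m + i)) (α' := al β (m + j)) hα (n - i) (n - j)
  have e : (fun η => ∑ s ∈ Finset.range (n - j + 1),
        (((n - j).choose s : ℝ) / pc (al β (m + j)) s *
          ((-1) ^ s * pc (((m + i : ℕ) : ℝ) + ((m + j : ℕ) : ℝ) + β) s) *
          (pc (al β (m + i) - (((m + i : ℕ) : ℝ) + ((m + j : ℕ) : ℝ) + β) - s) (n - i) /
            pc (al β (m + i)) (n - i))) * ip p q η) = (fun _ => 0) := by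
    funext η
    refine Finset.sum_eq_zero fun s hs => ?_
    rw [Finset.mem_range] at hs
    have h2 : al β (m + i) - (((m + i : ℕ) : ℝ) + ((m + j : ℕ) : ℝ) + β) - s =
        1 - ((j - i + s : ℕ) : ℝ) := by
      unfold al
      push_cast [Nat.cast_sub hij.le]
      ring
    rw [h2, pc_zero_of (by omega) (by omega)]
    simp
  rw [← e]
  exact h

/-- the norm -/
theorem Lg_norm {β : ℝ} (hβ : 0 < β) (k l : ℕ) {p : Py} (hp : HW k p) :
    Eqv β (ip (Lg (al β k) l p) (Lg (al β k) l p))
      (fun η => (l.factorial : ℝ) / pc (al β k) l * ip p p η) := by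
  have hα : 0 < al β k := by
    unfold al
    positivity
  have h := a5_key (β := β) hp hp (α := al β k) (α' := al β k) hα l l
  have e : (fun η => ∑ s ∈ Finset.range (l + 1),
        ((l.choose s : ℝ) / pc (al β k) s * ((-1) ^ s * pc ((k : ℝ) + k + β) s) *
          (pc (al β k - ((k : ℝ) + k + β) - s) l / pc (al β k) l)) * ip p p η) =
      (fun η => (l.factorial : ℝ) / pc (al β k) l * ip p p η) := by
    funext η
    rw [Finset.sum_eq_single 0]
    · have h2 : al β k - ((k : ℝ) + k + β) - ((0 : ℕ) : ℝ) = 1 := by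
        unfold al
        push_cast
        ring
      rw [h2, pc_one]
      simp [pc]
    · intro s hs hs0
      rw [Finset.mem_range] at hs
      have h2 : al β k - ((k : ℝ) + k + β) - (s : ℝ) = 1 - (s : ℝ) := by
        unfold al
        ring
      rw [h2, pc_zero_of (by omega) (by omega)]
      simp
    · intro h0
      exact absurd (Finset.mem_range.2 (Nat.succ_pos l)) h0
  rw [← e]
  exact h

end Pool.Agent.H5.HT
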