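import Pool.Agent.H5.HT.Eq
import Pool.Agent.H5.HT.Iter
import Pool.Agent.H5.HT.Vand
import Pool.Agent.H5.HT.Orth
import Pool.Agent.H5.HT.Dec

/-!
# Project HT, row A7: the tail-summed area inequality
-/

set_option autoImplicit false

namespace Pool.Agent.H5.HT

open Pool.Agent.H58.BJ
open scoped ComplexConjugate

theorem a7_G_append (β : ℝ) (μ μ' : Mu) (η : ℕ → ℂ) :
    G β (μ ++ μ') η = G β μ η + G β μ' η := by
  simp [G, List.map_append, List.sum_append]

theorem a7_add {β : ℝ} {F H F' H' : (ℕ → ℂ) → ℝ} (h : Eqv β F H) (h' : Eqv β F' H') :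
    Eqv β (fun η => F η + F' η) (fun η => H η + H' η) := by
  obtain ⟨μ, hμ⟩ := h
  obtain ⟨μ', hμ'⟩ := h'
  refine ⟨μ ++ μ', fun η => ?_⟩
  rw [a7_G_append, Complex.add_re, ← hμ, ← hμ']
  ring

theorem a7_congr {β : ℝ} {F H F' H' : (ℕ → ℂ) → ℝ} (h : Eqv β F H) (hF : ∀ η, F' η = F η)
    (hH : ∀ η, H' η = H η) : Eqv β F' H' := by
  obtain ⟨μ, hμ⟩ := h
  exact ⟨μ, fun η => by rw [hF, hH, hμ]⟩

/-- scalar products of the levels -/
theorem a7_LL {β : ℝ} (hβ : 0 < β) (m n : ℕ) (R : ℕ → Py) (hR : ∀ k, HW (m + k) (R k)) {i j : ℕ}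
    (hi : i ≤ n) (hj : j ≤ n) :
    Eqv β (ip (Lg (al β (m + i)) (n - i) (R i)) (Lg (al β (m + j)) (n - j) (R j)))
      (fun η => if i = j then
        ((n - j).factorial : ℝ) / pc (al β (m + j)) (n - j) * ip (R j) (R j) η else 0) := by
  rcases lt_trichotomy i j with h | h | h
  · refine a7_congr (Lg_orth hβ h hj m (hR i) (hR j)) (fun η => rfl) (fun η => ?_)
    rw [if_neg h.ne]
  · subst h
    refine a7_congr (Lg_norm hβ (m + i) (n - i) (hR i)) (fun η => rfl) (fun η => ?_)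
    rw [if_pos rfl]
  · refine a7_congr (Lg_orth hβ h hi m (hR j) (hR i)) (fun η => ip_comm _ _ _) (fun η => ?_)
    rw [if_neg h.ne']

/-- scalar products of sums of levels -/
theorem a7_SS {β : ℝ} (hβ : 0 < β) (m n : ℕ) (R : ℕ → Py) (hR : ∀ k, HW (m + k) (R k))
    (a : ℕ → ℝ) (s t : Finset ℕ) (hs : ∀ i ∈ s, i ≤ n) (hts : t ⊆ s) :
    Eqv β (ip (∑ i ∈ s, a i • Lg (al β (m + i)) (n - i) (R i))
        (∑ j ∈ t, a j • Lg (al β (m + j)) (n - j) (R j)))
      (fun η => ∑ j ∈ t, a j ^ 2 *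
        (((n - j).factorial : ℝ) / pc (al β (m + j)) (n - j) * ip (R j) (R j) η)) := by
  have h1 : Eqv β (fun η => ∑ i ∈ s, a i * ∑ j ∈ t, a j *
      ip (Lg (al β (m + i)) (n - i) (R i)) (Lg (al β (m + j)) (n - j) (R j)) η)
      (fun η => ∑ i ∈ s, a i * ∑ j ∈ t, a j * (if i = j then
        ((n - j).factorial : ℝ) / pc (al β (m + j)) (n - j) * ip (R j) (R j) η else 0)) := by
    refine Eqv_sum s fun i hi => ?_
    refine Eqv_smul (a i) (Eqv_sum t fun j hj => Eqv_smul (a j) ?_)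
    exact a7_LL hβ m n R hR (hs i hi) (hs j (hts hj))
  refine a7_congr h1 (fun η => ?_) (fun η => ?_)
  · rw [ip_sum_left]
    refine Finset.sum_congr rfl fun i _ => ?_
    rw [ip_smul_left, ip_comm, ip_sum_left]
    congr 1
    refine Finset.sum_congr rfl fun j _ => ?_
    rw [ip_smul_left, ip_comm]
  · have : ∀ i ∈ s, a i * ∑ j ∈ t, a j * (if i = j then
        ((n - j).factorial : ℝ) / pc (al β (m + j)) (n - j) * ip (R j) (R j) η else 0)
        = if i ∈ t then a i ^ 2 *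
        (((n - i).factorial : ℝ) / pc (al β (m + i)) (n - i) * ip (R i) (R i) η) else 0 := by
      intro i _
      have h2 : ∀ j ∈ t, a j * (if i = j then
        ((n - j).factorial : ℝ) / pc (al β (m + j)) (n - j) * ip (R j) (R j) η else 0)
        = if i = j then a i *
          (((n - i).factorial : ℝ) / pc (al β (m + i)) (n - i) * ip (R i) (R i) η) else 0 := by
        intro j _
        by_cases hij : i = j
        · subst hij; rw [if_pos rfl, if_pos rfl]
        · rw [if_neg hij, if_neg hij, mul_zero]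
      rw [Finset.sum_congr rfl h2, Finset.sum_ite_eq]
      by_cases hit : i ∈ t
      · rw [if_pos hit, if_pos hit]; ring
      · rw [if_neg hit, if_neg hit, mul_zero]
    rw [Finset.sum_congr rfl this, ← Finset.sum_filter]
    refine (Finset.sum_congr ?_ fun _ _ => rfl)
    ext i
    rw [Finset.mem_filter]
    exact ⟨fun h => ⟨hts h, h⟩, fun h => h.2⟩

theorem a7_ip_self (p : Py) (η : ℕ → ℂ) : ip p p η = ‖va η p‖ ^ 2 := by
  rw [ip, Complex.mul_conj, Complex.normSq_eq_norm_sq, Complex.ofReal_re]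

theorem a7_sq (p q : Py) (η : ℕ → ℂ) : 2 * ip p q η - ip q q η ≤ ‖va η p‖ ^ 2 := by
  have h : (0 : ℝ) ≤ ‖va η p - va η q‖ ^ 2 := by positivity
  have h2 : ‖va η p - va η q‖ ^ 2 = ‖va η p‖ ^ 2 - 2 * ip p q η + ip q q η := by
    rw [a7_ip_self, ← Complex.normSq_eq_norm_sq, Complex.normSq_sub,
      Complex.normSq_eq_norm_sq, Complex.normSq_eq_norm_sq, ip]
    ring
  linarith

theorem a7_va_sum {ι : Type} (s : Finset ι) (a : ι → ℝ) (f : ι → Py) (η : ℕ → ℂ) :
    va η (∑ i ∈ s, a i • f i) = ∑ i ∈ s, (a i : ℂ) * va η (f i) := by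
  simp [va]

/-- the tail-summed area inequality -/
theorem ht_ineq {β : ℝ} (hβ : 0 < β) {m : ℕ} {K : ℕ → Py} (hK : ∀ k, HW (m + k) (K k))
    {M J : ℕ} (hJ : J ≤ M) :
    ∃ μ : Mu, ∀ (η c : ℕ → ℂ), c 0 = 1 → Slack c →
      (∀ n, 1 ≤ n → n ≤ M →
        va η (K 0) * c n = ∑ k ∈ Finset.range (n + 1), (bb n k : ℂ) * va η (K k)) →
      0 ≤ (1 - Cs β m M 0) * ‖va η (K 0)‖ ^ 2 -
        ∑ j ∈ Finset.Icc 1 J, Cs β m M j * ‖va η (Rs β m K j)‖ ^ 2 + (G β μ η).re := by
  set R : ℕ → Py := Rs β m K with hRdef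
  have hR : ∀ k, HW (m + k) (R k) := fun k => HW_Rs hK k
  have hR0 : R 0 = K 0 := by
    have := Rs_eq β m K 0
    rw [Finset.sum_range_zero, add_zero] at this
    exact this.symm
  -- the two polynomials
  let B : ℕ → Py := fun n => ∑ j ∈ Finset.range (n + 1), ta n j • Lg (al β (m + j)) (n - j) (R j)
  let A : ℕ → Py := fun n => ∑ j ∈ (Finset.range (n + 1)).filter (· ≤ J),
    ta n j • Lg (al β (m + j)) (n - j) (R j)
  let S : ℕ → (ℕ → ℂ) → ℝ := fun n η => ∑ j ∈ (Finset.range (n + 1)).filter (· ≤ J), ta n j ^ 2 *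
        (((n - j).factorial : ℝ) / pc (al β (m + j)) (n - j) * ip (R j) (R j) η)
  have hBA : ∀ n, Eqv β (fun η => 2 * ip (B n) (A n) η - ip (A n) (A n) η) (S n) := by
    intro n
    have hs : ∀ i ∈ Finset.range (n + 1), i ≤ n := fun i hi => by
      rw [Finset.mem_range] at hi; omega
    have h1 := a7_SS hβ m n R hR (ta n) (Finset.range (n + 1))
      ((Finset.range (n + 1)).filter (· ≤ J)) hs (Finset.filter_subset _ _)
    have h2 := a7_SS hβ m n R hR (ta n) ((Finset.range (n + 1)).filter (· ≤ J))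
      ((Finset.range (n + 1)).filter (· ≤ J))
      (fun i hi => hs i (Finset.mem_of_mem_filter i hi)) (Finset.Subset.refl _)
    refine a7_congr (a7_add (Eqv_smul 2 h1) (Eqv_smul (-1) h2)) (fun η => ?_) (fun η => ?_)
    · change 2 * ip (B n) (A n) η - ip (A n) (A n) η
        = 2 * ip (B n) (A n) η + (-1) * ip (A n) (A n) η
      ring
    · change S n η = 2 * S n η + (-1) * S n η
      ring
  have hall : Eqv β (fun η => -1 * ∑ n ∈ Finset.Icc 1 M,
      (2 * (n : ℝ) - 1) * (2 * ip (B n) (A n) η - ip (A n) (A n) η))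
      (fun η => -1 * ∑ n ∈ Finset.Icc 1 M, (2 * (n : ℝ) - 1) * S n η) :=
    Eqv_smul (-1) (Eqv_sum _ fun n _ => Eqv_smul _ (hBA n))
  -- exchange of the sums
  have hex : ∀ η, ∑ n ∈ Finset.Icc 1 M, (2 * (n : ℝ) - 1) * S n η
      = ∑ j ∈ Finset.range (J + 1), Cs β m M j * ip (R j) (R j) η := by
    intro η
    have e1 : ∀ n ∈ Finset.Icc 1 M, (2 * (n : ℝ) - 1) * S n η
        = ∑ j ∈ Finset.range (J + 1), if j ≤ n then
          pc (1 / 2 + (j : ℝ)) (n - j) ^ 2 /
            ((2 * (n : ℝ) - 1) * (n - j).factorial * pc (al β (m + j)) (n - j)) *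
              ip (R j) (R j) η else 0 := by
      intro n hn
      rw [Finset.mem_Icc] at hn
      have hn1 : (1 : ℝ) ≤ n := by exact_mod_cast hn.1
      have hn2 : (2 * (n : ℝ) - 1) ≠ 0 := by linarith
      rw [← Finset.sum_filter]
      change (2 * (n : ℝ) - 1) * ∑ j ∈ (Finset.range (n + 1)).filter (· ≤ J), _ = _
      rw [Finset.mul_sum]
      have hset : (Finset.range (n + 1)).filter (· ≤ J)
          = (Finset.range (J + 1)).filter (· ≤ n) := by
        ext j
        rw [Finset.mem_filter, Finset.mem_filter, Finset.mem_range, Finset.mem_range]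
        omega
      rw [hset]
      refine Finset.sum_congr rfl fun j _ => ?_
      have hf : ((n - j).factorial : ℝ) ≠ 0 := by exact_mod_cast (n - j).factorial_ne_zero
      have hp : pc (al β (m + j)) (n - j) ≠ 0 := by
        refine (pc_pos ?_ _).ne'
        rw [al]
        positivity
      rw [ta]
      field_simp
    rw [Finset.sum_congr rfl e1, Finset.sum_comm]
    refine Finset.sum_congr rfl fun j hj => ?_
    rw [Cs, Finset.sum_mul, ← Finset.sum_filter]
    refine Finset.sum_congr ?_ fun _ _ => rfl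
    ext n
    rw [Finset.mem_filter, Finset.mem_Icc, Finset.mem_Icc, max_le_iff]
    tauto
  obtain ⟨μ, hμ⟩ := hall
  refine ⟨μ, fun η c hc0 hc hcn => ?_⟩
  have hB : ∀ n, 1 ≤ n → n ≤ M → va η (K 0) * c n = va η (B n) := by
    intro n h1 h2
    rw [hcn n h1 h2, ← a7_va_sum, decomp hβ m K h1]
  have hsl := hc (va η (K 0)) 0 M
  simp only [zero_mul, add_zero, norm_zero, hc0, mul_one] at hsl
  have hsl2 : ∑ n ∈ Finset.Icc 1 M, (2 * (n : ℝ) - 1) * ‖va η (B n)‖ ^ 2 ≤ ‖va η (K 0)‖ ^ 2 := by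
    have e2 : ∑ n ∈ Finset.Icc 1 M, (2 * (n : ℝ) - 1) * ‖va η (B n)‖ ^ 2
        = ∑ n ∈ Finset.range M, (2 * (n : ℝ) + 1) * ‖va η (K 0) * c (n + 1)‖ ^ 2 := by
      rw [← Finset.Ico_succ_right_eq_Icc, Finset.sum_Ico_eq_sum_range]
      refine Finset.sum_congr (by simp) fun n hn => ?_
      rw [Finset.mem_range] at hn
      have hn' : n + 1 ≤ M := by simpa using hn
      rw [add_comm 1 n, hB (n + 1) (by omega) hn']
      push_cast
      ring
    rw [e2]
    refine hsl.trans ?_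
    norm_num
  have hlow : ∑ n ∈ Finset.Icc 1 M,
      (2 * (n : ℝ) - 1) * (2 * ip (B n) (A n) η - ip (A n) (A n) η) ≤ ‖va η (K 0)‖ ^ 2 := by
    refine le_trans (Finset.sum_le_sum fun n hn => ?_) hsl2
    rw [Finset.mem_Icc] at hn
    have hn1 : (1 : ℝ) ≤ n := by exact_mod_cast hn.1
    exact mul_le_mul_of_nonneg_left (a7_sq _ _ _) (by linarith)
  have hμ' := hμ η
  beta_reduce at hμ'
  rw [hex η, Finset.range_eq_Ico, Finset.sum_eq_sum_Ico_succ_bot (by omega : 0 < J + 1)] at hμ'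
  have hico : Finset.Ico (0 + 1) (J + 1) = Finset.Icc 1 J := by
    ext j; rw [Finset.mem_Ico, Finset.mem_Icc]; omega
  rw [hico, a7_ip_self, hR0] at hμ'
  have hsum : ∑ j ∈ Finset.Icc 1 J, Cs β m M j * ip (R j) (R j) η
      = ∑ j ∈ Finset.Icc 1 J, Cs β m M j * ‖va η (R j)‖ ^ 2 :=
    Finset.sum_congr rfl fun j _ => by rw [a7_ip_self]
  rw [hsum] at hμ'
  rw [← hμ']
  nlinarith [hlow]

end Pool.Agent.H5.HT
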