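import Pool.Agent.H5.HT.Def

/-!
# Project HT, row B1: products of the substituted series
-/

set_option autoImplicit false

namespace Pool.Agent.H5.HT

open Finset

/-- The quotient `(x)_p / p!`. -/
noncomputable def htb1_q (x : ℝ) (p : ℕ) : ℝ := pc x p / p.factorial

theorem htb1_q_succ (x : ℝ) (p : ℕ) :
    ((p : ℝ) + 1) * htb1_q x (p + 1) = (x + p) * htb1_q x p := by
  have h1 : ((p : ℝ) + 1) ≠ 0 := by positivity
  have h2 : ((p.factorial : ℕ) : ℝ) ≠ 0 := by positivity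
  unfold htb1_q pc
  rw [prod_range_succ, Nat.factorial_succ]
  push_cast
  field_simp

/-- Chu-Vandermonde. -/
theorem htb1_vand (x y : ℝ) (N : ℕ) :
    ∑ p ∈ antidiagonal N, htb1_q x p.1 * htb1_q y p.2 = htb1_q (x + y) N := by
  induction N with
  | zero => simp [htb1_q, pc]
  | succ N ih =>
    have h1 : ((N : ℝ) + 1) ≠ 0 := by positivity
    apply mul_left_cancel₀ h1
    rw [htb1_q_succ, ← ih, mul_sum, mul_sum]
    have h2 : ∀ p ∈ antidiagonal (N + 1), ((N : ℝ) + 1) * (htb1_q x p.1 * htb1_q y p.2) =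
        (p.1 : ℝ) * (htb1_q x p.1 * htb1_q y p.2) + (p.2 : ℝ) * (htb1_q x p.1 * htb1_q y p.2) := by
      intro p hp
      have h3 : p.1 + p.2 = N + 1 := HasAntidiagonal.mem_antidiagonal.mp hp
      have h4 : (p.1 : ℝ) + p.2 = N + 1 := by exact_mod_cast h3
      rw [← h4]
      ring
    rw [sum_congr rfl h2, sum_add_distrib,
      Nat.sum_antidiagonal_succ (f := fun p => (p.1 : ℝ) * (htb1_q x p.1 * htb1_q y p.2)),
      Nat.sum_antidiagonal_succ' (f := fun p => (p.2 : ℝ) * (htb1_q x p.1 * htb1_q y p.2))]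
    simp only [Nat.cast_zero, zero_mul, zero_add, Nat.cast_add, Nat.cast_one]
    rw [← sum_add_distrib]
    apply sum_congr rfl
    intro p hp
    have h3 : p.1 + p.2 = N := HasAntidiagonal.mem_antidiagonal.mp hp
    have h4 : (p.1 : ℝ) + p.2 = N := by exact_mod_cast h3
    have e1 := htb1_q_succ x p.1
    have e2 := htb1_q_succ y p.2
    rw [← h4]
    linear_combination htb1_q y p.2 * e1 + htb1_q x p.1 * e2

theorem htb1_Sb (a : ℝ) (g : ℕ → ℂ) (n : ℕ) :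
    Sb a g n = ∑ p ∈ antidiagonal n, ((htb1_q ((p.1 : ℝ) + a) p.2 : ℝ) : ℂ) * g p.1 := by
  rw [Nat.sum_antidiagonal_eq_sum_range_succ_mk]
  rfl

theorem htb1_cp (g h : ℕ → ℂ) (n : ℕ) :
    cp g h n = ∑ p ∈ antidiagonal n, g p.1 * h p.2 := by
  rw [Nat.sum_antidiagonal_eq_sum_range_succ_mk]
  rfl

/-- Rearrangement of a fourfold sum. -/
theorem htb1_swap (T : ℕ → ℕ → ℕ → ℕ → ℂ) (n : ℕ) :
    ∑ ij ∈ antidiagonal n, ∑ x ∈ antidiagonal ij.1 ×ˢ antidiagonal ij.2,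
      T x.1.1 x.1.2 x.2.1 x.2.2 =
    ∑ ms ∈ antidiagonal n, ∑ x ∈ antidiagonal ms.1 ×ˢ antidiagonal ms.2,
      T x.1.1 x.2.1 x.1.2 x.2.2 := by
  rw [sum_sigma', sum_sigma']
  refine sum_nbij'
    (fun x => ⟨(x.2.1.1 + x.2.2.1, x.2.1.2 + x.2.2.2), ((x.2.1.1, x.2.2.1), (x.2.1.2, x.2.2.2))⟩)
    (fun x => ⟨(x.2.1.1 + x.2.2.1, x.2.1.2 + x.2.2.2), ((x.2.1.1, x.2.2.1), (x.2.1.2, x.2.2.2))⟩)
    ?_ ?_ ?_ ?_ ?_
  · rintro ⟨⟨i, j⟩, ⟨⟨k, p⟩, ⟨l, q⟩⟩⟩ h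
    simp only [mem_sigma, mem_product, HasAntidiagonal.mem_antidiagonal] at h ⊢
    obtain ⟨h0, h1, h2⟩ := h
    exact ⟨by omega, trivial, trivial⟩
  · rintro ⟨⟨i, j⟩, ⟨⟨k, p⟩, ⟨l, q⟩⟩⟩ h
    simp only [mem_sigma, mem_product, HasAntidiagonal.mem_antidiagonal] at h ⊢
    obtain ⟨h0, h1, h2⟩ := h
    exact ⟨by omega, trivial, trivial⟩
  · rintro ⟨⟨i, j⟩, ⟨⟨k, p⟩, ⟨l, q⟩⟩⟩ h
    simp only [mem_sigma, mem_product, HasAntidiagonal.mem_antidiagonal] at h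
    obtain ⟨_, h1, h2⟩ := h
    subst h1 h2
    rfl
  · rintro ⟨⟨i, j⟩, ⟨⟨k, p⟩, ⟨l, q⟩⟩⟩ h
    simp only [mem_sigma, mem_product, HasAntidiagonal.mem_antidiagonal] at h
    obtain ⟨_, h1, h2⟩ := h
    subst h1 h2
    rfl
  · intro x _
    rfl

theorem Sb_mul (a b : ℝ) (g h : ℕ → ℂ) (n : ℕ) :
    cp (Sb a g) (Sb b h) n = Sb (a + b) (cp g h) n := by
  rw [htb1_cp, htb1_Sb]
  have hL : ∀ ij ∈ antidiagonal n, Sb a g ij.1 * Sb b h ij.2 =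
      ∑ x ∈ antidiagonal ij.1 ×ˢ antidiagonal ij.2,
        (fun (k p l q : ℕ) => (((htb1_q ((k : ℝ) + a) p : ℝ) : ℂ) * g k) *
          (((htb1_q ((l : ℝ) + b) q : ℝ) : ℂ) * h l)) x.1.1 x.1.2 x.2.1 x.2.2 := by
    intro ij _
    rw [htb1_Sb, htb1_Sb, sum_mul_sum, sum_product]
  rw [sum_congr rfl hL, htb1_swap (fun (k p l q : ℕ) => (((htb1_q ((k : ℝ) + a) p : ℝ) : ℂ) * g k) *
    (((htb1_q ((l : ℝ) + b) q : ℝ) : ℂ) * h l)) n]
  apply sum_congr rfl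
  intro ms _
  rw [htb1_cp, mul_sum, sum_product]
  apply sum_congr rfl
  intro kl hkl
  have h1 : kl.1 + kl.2 = ms.1 := HasAntidiagonal.mem_antidiagonal.mp hkl
  have h2 : ((ms.1 : ℕ) : ℝ) + (a + b) = ((kl.1 : ℝ) + a) + ((kl.2 : ℝ) + b) := by
    rw [← h1]
    push_cast
    ring
  rw [h2, ← htb1_vand, Complex.ofReal_sum, sum_mul]
  apply sum_congr rfl
  intro pq _
  simp only [Complex.ofReal_mul]
  ring

end Pool.Agent.H5.HT
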