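import Pool.Agent.H5.HT.SbMul

/-!
# Project HT: row B2

The derivative rule for the substitution `U = ζ / (1 - ζ)`.
-/

set_option autoImplicit false

namespace Pool.Agent.H5.HT

open Pool.Agent.H58.BJ
open scoped ComplexConjugate

theorem b2_pc_succ (x : ℝ) (n : ℕ) : pc x (n + 1) = pc x n * (x + n) := by
  rw [pc, Finset.prod_range_succ, pc]

theorem b2_pc_succ' (x : ℝ) (n : ℕ) : pc x (n + 1) = x * pc (x + 1) n := by
  rw [pc, Finset.prod_range_succ', pc]
  simp only [Nat.cast_zero, add_zero, Nat.cast_add, Nat.cast_one]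
  rw [mul_comm]
  congr 1
  apply Finset.prod_congr rfl
  intro i _
  ring

theorem b2_coef (a : ℝ) (k l : ℕ) :
    ((k : ℝ) + l + 1) * (pc ((k : ℝ) + a) (l + 1) / (l + 1).factorial) =
      (k : ℝ) * (pc ((k : ℝ) + (a + 1)) (l + 1) / (l + 1).factorial) +
        a * (pc ((k : ℝ) + (a + 1)) l / l.factorial) := by
  have h1 := b2_pc_succ' ((k : ℝ) + a) l
  have h2 := b2_pc_succ ((k : ℝ) + (a + 1)) l
  rw [add_assoc] at h1
  rw [h1, h2, Nat.factorial_succ]
  have hl : (l.factorial : ℝ) ≠ 0 := by positivity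
  have hl1 : ((l : ℝ) + 1) ≠ 0 := by positivity
  push_cast
  field_simp
  ring

/-- ## B2 -/
theorem Sb_deriv (a : ℝ) (g : ℕ → ℂ) (n : ℕ) :
    ((n : ℂ) + 1) * Sb a g (n + 1) =
      Sb (a + 2) (fun k => ((k : ℂ) + 1) * g (k + 1)) n + (a : ℂ) * Sb (a + 1) g n := by
  have h1 : Sb (a + 2) (fun k => ((k : ℂ) + 1) * g (k + 1)) n =
      ∑ k ∈ Finset.range (n + 1 + 1),
        ((pc ((k : ℝ) + (a + 1)) (n + 1 - k) / (n + 1 - k).factorial : ℝ) : ℂ) *
          ((k : ℂ) * g k) := by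
    rw [Finset.sum_range_succ', Sb]
    simp only [Nat.cast_zero, zero_mul, mul_zero, add_zero]
    apply Finset.sum_congr rfl
    intro k _
    have e1 : n + 1 - (k + 1) = n - k := by omega
    have e2 : ((k + 1 : ℕ) : ℝ) + (a + 1) = (k : ℝ) + (a + 2) := by push_cast; ring
    rw [e1, e2]
    push_cast
    ring
  rw [h1, Sb, Sb, Finset.sum_range_succ, Finset.sum_range_succ _ (n + 1), Nat.sub_self]
  simp only [pc, Finset.range_zero, Finset.prod_empty, Nat.factorial_zero, Nat.cast_one, div_one,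
    Complex.ofReal_one, one_mul]
  rw [mul_add, Finset.mul_sum, Finset.mul_sum]
  have h2 : ∀ k ∈ Finset.range (n + 1),
      ((n : ℂ) + 1) * (((∏ i ∈ Finset.range (n + 1 - k), ((k : ℝ) + a + i)) /
        (n + 1 - k).factorial : ℝ) * g k) =
      (((∏ i ∈ Finset.range (n + 1 - k), ((k : ℝ) + (a + 1) + i)) /
        (n + 1 - k).factorial : ℝ) : ℂ) * ((k : ℂ) * g k) +
      (a : ℂ) * ((((∏ i ∈ Finset.range (n - k), ((k : ℝ) + (a + 1) + i)) /
        (n - k).factorial : ℝ) : ℂ) * g k) := by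
    intro k hk
    obtain ⟨l, rfl⟩ : ∃ l, n = k + l := ⟨n - k, by have := Finset.mem_range.1 hk; omega⟩
    have e1 : k + l + 1 - k = l + 1 := by omega
    have e2 : k + l - k = l := by omega
    rw [e1, e2]
    have h3 := congrArg (fun x : ℝ => (x : ℂ)) (b2_coef a k l)
    simp only [pc] at h3
    push_cast at h3 ⊢
    linear_combination g k * h3
  rw [Finset.sum_congr rfl h2, Finset.sum_add_distrib]
  push_cast
  ring

end Pool.Agent.H5.HT
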