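import Pool.Agent.H5.HT.Def
import Pool.Agent.H5.HT.SbMul
import Pool.Agent.H5.HT.SbDer
import Pool.Agent.H5.HT.Gp

/-!
# Project HT, row B3: the substitution `U = ζ / (1 - ζ)`
-/

set_option autoImplicit false

namespace Pool.Agent.H5.HT

open Pool.Agent.H58.BJ
open scoped ComplexConjugate

theorem b3_Sb_add (a : ℝ) (g h : ℕ → ℂ) (n : ℕ) :
    Sb a (fun k => g k + h k) n = Sb a g n + Sb a h n := by
  unfold Sb
  rw [← Finset.sum_add_distrib]
  exact Finset.sum_congr rfl fun k _ => by ring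

theorem b3_Sb_smul (a : ℝ) (z : ℂ) (g : ℕ → ℂ) (n : ℕ) :
    Sb a (fun k => z * g k) n = z * Sb a g n := by
  unfold Sb
  rw [Finset.mul_sum]
  exact Finset.sum_congr rfl fun k _ => by ring

theorem b3_cp_add_left (g g' h : ℕ → ℂ) (n : ℕ) :
    cp (fun k => g k + g' k) h n = cp g h n + cp g' h n := by
  unfold cp
  rw [← Finset.sum_add_distrib]
  exact Finset.sum_congr rfl fun k _ => by ring

theorem b3_cp_add_right (g h h' : ℕ → ℂ) (n : ℕ) :
    cp g (fun k => h k + h' k) n = cp g h n + cp g h' n := by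
  unfold cp
  rw [← Finset.sum_add_distrib]
  exact Finset.sum_congr rfl fun k _ => by ring

theorem b3_cp_smul_left (z : ℂ) (g h : ℕ → ℂ) (n : ℕ) :
    cp (fun k => z * g k) h n = z * cp g h n := by
  unfold cp
  rw [Finset.mul_sum]
  exact Finset.sum_congr rfl fun k _ => by ring

theorem b3_cp_smul_right (z : ℂ) (g h : ℕ → ℂ) (n : ℕ) :
    cp g (fun k => z * h k) n = z * cp g h n := by
  unfold cp
  rw [Finset.mul_sum]
  exact Finset.sum_congr rfl fun k _ => by ring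

theorem b3_cp_congr {g g' h h' : ℕ → ℂ} (hg : ∀ n, g n = g' n) (hh : ∀ n, h n = h' n) (n : ℕ) :
    cp g h n = cp g' h' n := by
  unfold cp
  exact Finset.sum_congr rfl fun k _ => by rw [hg, hh]

theorem b3_Sb_congr (a : ℝ) {g g' : ℕ → ℂ} (hg : ∀ n, g n = g' n) (n : ℕ) :
    Sb a g n = Sb a g' n := by
  unfold Sb
  exact Finset.sum_congr rfl fun k _ => by rw [hg]

/-- the constant sequence -/
theorem b3_one (n : ℕ) : Sb 1 (fun k => if k = 0 then 1 else 0) n = 1 := by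
  unfold Sb
  rw [Finset.sum_eq_single 0]
  · have h1 : ∀ m : ℕ, pc 1 m = (m.factorial : ℝ) := by
      intro m
      unfold pc
      rw [← Finset.prod_range_add_one_eq_factorial]
      push_cast
      exact Finset.prod_congr rfl fun i _ => by ring
    simp only [Nat.cast_zero, zero_add, Nat.sub_zero, if_true, mul_one]
    rw [h1, div_self (Nat.cast_ne_zero.2 n.factorial_ne_zero), Complex.ofReal_one]
  · intro k _ hk
    simp [hk]
  · simp

theorem b3_cp_delta (w : ℕ → ℂ) (n : ℕ) : cp (fun k => if k = 0 then 1 else 0) w n = w n := by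
  unfold cp
  rw [Finset.sum_eq_single 0]
  · simp
  · intro k _ hk
    simp [hk]
  · simp

theorem b3_pc_succ (x : ℝ) (n : ℕ) : pc x (n + 1) = pc x n * (x + n) := by
  unfold pc
  rw [Finset.prod_range_succ]

theorem b3_pc_shift (x : ℝ) (n : ℕ) : x * pc (x + 1) n = pc x n * (x + n) := by
  induction n with
  | zero => simp [pc]
  | succ n ih =>
    rw [b3_pc_succ (x + 1) n, ← mul_assoc, ih, b3_pc_succ]
    push_cast
    ring

/-- `vv` of the substituted sequence -/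
theorem b3_vv (g : ℕ → ℂ) (n : ℕ) : vv (Sb (-(1 / 2)) g) n = Sb (1 / 2) (vv g) n := by
  unfold vv Sb
  rw [Finset.mul_sum]
  refine Finset.sum_congr rfl fun k hk => ?_
  have hkn : k ≤ n := Nat.lt_succ_iff.1 (Finset.mem_range.1 hk)
  have h1 := b3_pc_shift ((k : ℝ) + -(1 / 2)) (n - k)
  have e1 : (k : ℝ) + -(1 / 2) + 1 = k + 1 / 2 := by ring
  have e2 : (k : ℝ) + -(1 / 2) + ((n - k : ℕ) : ℝ) = n - 1 / 2 := by
    rw [Nat.cast_sub hkn]; ring
  rw [e1, e2] at h1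
  have h2 : (1 - 2 * (n : ℝ)) * (pc ((k : ℝ) + -(1 / 2)) (n - k) / (n - k).factorial) =
      pc ((k : ℝ) + 1 / 2) (n - k) / (n - k).factorial * (1 - 2 * (k : ℝ)) := by
    rw [mul_div_assoc', div_mul_eq_mul_div]
    congr 1
    linear_combination 2 * h1
  have h3 := congrArg (fun x : ℝ => (x : ℂ)) h2
  push_cast at h3 ⊢
  linear_combination g k * h3

/-- the coefficients `r` -/
theorem b3_r {r η : ℕ → ℂ} (hy : RelY 1 r η) (n : ℕ) :
    r n = 2 * Sb 1 (fun k => if k = 0 then 1 else 0) n + Sb 2 η n := by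
  rw [hy n, b3_one]
  simp only [Complex.ofReal_one, one_pow, mul_one]
  congr 1
  unfold Sb
  refine Finset.sum_congr rfl fun k hk => ?_
  have hkn : k ≤ n := Nat.lt_succ_iff.1 (Finset.mem_range.1 hk)
  obtain ⟨m, rfl⟩ := Nat.exists_eq_add_of_le hkn
  have h1 : ∀ m : ℕ, ((k + 1).factorial : ℝ) * pc ((k : ℝ) + 2) m = ((k + m + 1).factorial : ℝ) := by
    intro m
    induction m with
    | zero => simp [pc]
    | succ m ih =>
      rw [b3_pc_succ, ← mul_assoc, ih]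
      rw [show k + (m + 1) + 1 = (k + m + 1) + 1 by ring, Nat.factorial_succ (k + m + 1)]
      push_cast
      ring
  have h2 : (((k + m + 1).choose (k + 1) : ℕ) : ℝ) = pc ((k : ℝ) + 2) m / (m.factorial : ℝ) := by
    have h3 := Nat.choose_mul_factorial_mul_factorial (n := k + m + 1) (k := k + 1) (by omega)
    have h4 : k + m + 1 - (k + 1) = m := by omega
    rw [h4] at h3
    have h5 : (((k + m + 1).choose (k + 1) : ℕ) : ℝ) * ((k + 1).factorial : ℝ) * (m.factorial : ℝ) =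
        ((k + m + 1).factorial : ℝ) := by exact_mod_cast h3
    rw [← h1 m] at h5
    have h6 : ((k + 1).factorial : ℝ) ≠ 0 := Nat.cast_ne_zero.2 (Nat.factorial_ne_zero _)
    have h7 : (m.factorial : ℝ) ≠ 0 := Nat.cast_ne_zero.2 (Nat.factorial_ne_zero _)
    rw [eq_div_iff h7]
    apply mul_left_cancel₀ h6
    linarith
  rw [Nat.add_sub_cancel_left]
  have h8 := congrArg (fun x : ℝ => (x : ℂ)) h2
  simp only [Complex.ofReal_natCast] at h8
  rw [h8]

/-- `RelR` in terms of Cauchy products -/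
theorem b3_rel (c r : ℕ → ℂ) : RelR c r ↔ ∀ n, cp r (cp c (vv c)) n =
    -3 * cp (fun k => ((k : ℂ) + 1) * c (k + 1)) (vv c) n +
      cp c (fun k => ((k : ℂ) + 1) * vv c (k + 1)) n := by
  unfold RelR
  refine forall_congr' fun n => ?_
  have h1 : cp r (cp c (vv c)) n =
      ∑ k ∈ Finset.range (n + 1), r k * ∑ i ∈ Finset.range (n - k + 1), c i * vv c (n - k - i) := rfl
  have h2 : -3 * cp (fun k => ((k : ℂ) + 1) * c (k + 1)) (vv c) n +
      cp c (fun k => ((k : ℂ) + 1) * vv c (k + 1)) n =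
      ∑ i ∈ Finset.range (n + 1), (-3 * ((i : ℂ) + 1) * c (i + 1) * vv c (n - i) +
      (((n - i : ℕ) : ℂ) + 1) * c i * vv c (n - i + 1)) := by
    unfold cp
    rw [Finset.mul_sum, ← Finset.sum_add_distrib]
    exact Finset.sum_congr rfl fun i _ => by ring
  rw [h1, h2]

/-- the coefficients `c` of `(ζ/Φ)^{1/2}` in terms of those of `(U/Φ~)^{1/2}` -/
theorem subst {c r η g : ℕ → ℂ} (hc0 : c 0 = 1) (hg0 : g 0 = 1) (hc : RelR c r)
    (hy : RelY 1 r η) (hg : RelR g η) (n : ℕ) : c n = Sb (-(1 / 2)) g n := by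
  refine relR_unique hc0 ?_ hc ?_ n
  · simp [Sb, pc, hg0]
  rw [b3_rel] at hg ⊢
  intro n
  -- the sequences
  have hv : ∀ k, vv (Sb (-(1 / 2)) g) k = Sb (1 / 2) (vv g) k := b3_vv g
  have hdc : ∀ k : ℕ, ((k : ℂ) + 1) * Sb (-(1 / 2)) g (k + 1) =
      Sb (3 / 2) (fun k => ((k : ℂ) + 1) * g (k + 1)) k + (-(1 / 2) : ℂ) * Sb (1 / 2) g k := by
    intro k
    have h := Sb_deriv (-(1 / 2)) g k
    rw [show (-(1 / 2) : ℝ) + 2 = 3 / 2 by norm_num, show (-(1 / 2) : ℝ) + 1 = 1 / 2 by norm_num] at h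
    rw [h]
    push_cast
    ring
  have hdv : ∀ k : ℕ, ((k : ℂ) + 1) * vv (Sb (-(1 / 2)) g) (k + 1) =
      Sb (5 / 2) (fun k => ((k : ℂ) + 1) * vv g (k + 1)) k + (1 / 2 : ℂ) * Sb (3 / 2) (vv g) k := by
    intro k
    rw [hv]
    have h := Sb_deriv (1 / 2) (vv g) k
    rw [show (1 / 2 : ℝ) + 2 = 5 / 2 by norm_num, show (1 / 2 : ℝ) + 1 = 3 / 2 by norm_num] at h
    rw [h]
    push_cast
    ring
  -- left side
  have hcv : ∀ k, cp (Sb (-(1 / 2)) g) (vv (Sb (-(1 / 2)) g)) k = Sb 0 (cp g (vv g)) k := by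
    intro k
    rw [b3_cp_congr (fun _ => rfl) hv, Sb_mul]
    norm_num
  have hL : cp r (cp (Sb (-(1 / 2)) g) (vv (Sb (-(1 / 2)) g))) n =
      2 * Sb 1 (cp g (vv g)) n + Sb 2 (cp η (cp g (vv g))) n := by
    rw [b3_cp_congr (b3_r hy) hcv, b3_cp_add_left, b3_cp_smul_left, Sb_mul, Sb_mul, add_zero,
      add_zero, b3_Sb_congr 1 (b3_cp_delta _)]
  have h1 : cp (fun k => ((k : ℂ) + 1) * Sb (-(1 / 2)) g (k + 1)) (vv (Sb (-(1 / 2)) g)) n =
      Sb 2 (cp (fun k => ((k : ℂ) + 1) * g (k + 1)) (vv g)) n +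
        (-(1 / 2) : ℂ) * Sb 1 (cp g (vv g)) n := by
    rw [b3_cp_congr hdc hv, b3_cp_add_left, b3_cp_smul_left, Sb_mul, Sb_mul]
    norm_num
  have h2 : cp (Sb (-(1 / 2)) g) (fun k => ((k : ℂ) + 1) * vv (Sb (-(1 / 2)) g) (k + 1)) n =
      Sb 2 (cp g (fun k => ((k : ℂ) + 1) * vv g (k + 1))) n +
        (1 / 2 : ℂ) * Sb 1 (cp g (vv g)) n := by
    rw [b3_cp_congr (fun _ => rfl) hdv, b3_cp_add_right, b3_cp_smul_right, Sb_mul, Sb_mul]
    norm_num
  rw [hL, h1, h2, b3_Sb_congr 2 hg, b3_Sb_add, b3_Sb_smul]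
  ring

end Pool.Agent.H5.HT
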