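import Pool.Agent.H5.HT.Def
import Pool.Agent.H5.HT.Ineq
import Pool.Agent.H5.HT.SbMul
import Pool.Agent.H5.HT.Subst

/-!
# Project HT, B5: the inequality for one multiplier
-/

set_option autoImplicit false

namespace Pool.Agent.H5.HT

open Pool.Agent.H58.BJ
open scoped ComplexConjugate

/-- the coefficient in `Y c_n` -/
theorem b5_bb (n k : ℕ) : bb n k * (1 - 2 * (k : ℝ)) =
    pc ((k : ℝ) + -(1 / 2)) (n - k) / (n - k).factorial := by
  have h1 : (2 * (k : ℝ) - 1) ≠ 0 := by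
    intro h
    have h2 : (2 * (k : ℤ) - 1 : ℤ) = 0 := by exact_mod_cast h
    omega
  have h3 : ((n - k).factorial : ℝ) ≠ 0 := by exact_mod_cast Nat.factorial_ne_zero _
  have h4 : (1 - 2 * (k : ℝ)) = -(2 * (k : ℝ) - 1) := by ring
  rw [bb, ← sub_eq_add_neg, h4, neg_mul_neg, div_mul_eq_mul_div, mul_comm (2 * (k : ℝ) - 1)
    ((n - k).factorial : ℝ), mul_div_mul_right _ _ h1]

/-- the inequality for one multiplier `Y` -/
theorem ht_main {β : ℝ} (hβ : 0 < β) {gp : ℕ → Py} (h0 : gp 0 = 1) (hw : ∀ k, HW k (gp k))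
    (hr : ∀ η, RelR (fun k => va η (gp k)) η) {m : ℕ} {Y : Py} (hY : HW m Y) {M J : ℕ}
    (hJ : J ≤ M) :
    ∃ μ : Mu, ∀ (c r η : ℕ → ℂ), c 0 = 1 → Slack c → RelR c r → RelY 1 r η →
      0 ≤ (1 - Cs β m M 0) * ‖va η Y‖ ^ 2 -
        ∑ j ∈ Finset.Icc 1 J,
          Cs β m M j * ‖va η (Rs β m (fun k => (1 - 2 * (k : ℝ)) • (Y * gp k)) j)‖ ^ 2 +
        (G β μ η).re := by
  set K : ℕ → Py := fun k => (1 - 2 * (k : ℝ)) • (Y * gp k) with hK
  have hKw : ∀ k, HW (m + k) (K k) := fun k => by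
    have h1 : MvPolynomial.IsWeightedHomogeneous wf (Y * gp k) (m + k) := hY.mul (hw k)
    exact (MvPolynomial.weightedHomogeneousSubmodule ℝ wf (m + k)).smul_mem _ h1
  have hK0 : K 0 = Y := by
    simp [hK, h0]
  obtain ⟨μ, hμ⟩ := ht_ineq hβ hKw hJ
  refine ⟨μ, fun c r η hc0 hsl hcr hry => ?_⟩
  have h1 := hμ η c hc0 hsl ?_
  · rw [hK0] at h1
    exact h1
  · intro n _ _
    have hg0 : (fun k => va η (gp k)) 0 = 1 := by simp [h0, va]
    rw [hK0, subst hc0 hg0 hcr hry (hr η) n, Sb, Finset.mul_sum]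
    refine Finset.sum_congr rfl fun k _ => ?_
    have h2 : va η (K k) = ((1 - 2 * (k : ℝ) : ℝ) : ℂ) * (va η Y * va η (gp k)) := by
      rw [hK, va]
      simp [va]
    rw [h2, ← b5_bb]
    push_cast
    ring

end Pool.Agent.H5.HT
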