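import Pool.Agent.H5.HT.Chain
import Pool.Agent.H5.HT.CsLo
import Pool.Agent.H5.HT.HtMain
import Pool.Agent.H5.HT.Gp
import Pool.Agent.H58.BJ.C0

/-!
# Project HT, row K5: soundness of the data of one multiplier
-/

set_option autoImplicit false

namespace Pool.Agent.H5.HT

open Pool.Agent.H58.BJ
open scoped ComplexConjugate

/-- sum over two lists -/
theorem k5_zip {A : Type} (d : A) (f : ℕ → A → ℝ) : ∀ (B : List ℕ) (R : List A)
    (J : ℕ), B.length = J → R.length = J →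
    ((B.zip R).map fun x => f x.1 x.2).sum =
      ∑ j ∈ Finset.range J, f (ent (nat_lit 0) B j) (ent d R j) := by
  intro B
  induction B with
  | nil =>
    intro R J hB _
    rw [List.length_nil] at hB
    subst hB
    simp
  | cons b B ih =>
    intro R J hB hR
    cases R with
    | nil =>
      rw [List.length_cons] at hB
      rw [List.length_nil] at hR
      omega
    | cons r R =>
      obtain ⟨J', rfl⟩ : ∃ J', J = J' + 1 := ⟨B.length, by rw [← hB, List.length_cons]⟩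
      rw [List.length_cons] at hB hR
      have h1 := ih R J' (by omega) (by omega)
      rw [List.zip_cons_cons, List.map_cons, List.sum_cons, h1, Finset.sum_range_succ']
      have h2 : ∀ j, ent (nat_lit 0) (b :: B) (j + 1) = ent (nat_lit 0) B j := fun _ => rfl
      have h3 : ∀ j, ent d (r :: R) (j + 1) = ent d R j := fun _ => rfl
      have h4 : ent (nat_lit 0) (b :: B) 0 = b := rfl
      have h5 : ent d (r :: R) 0 = r := rfl
      simp only [h2, h3, h4, h5]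
      ring

theorem k5_icc (f : ℕ → ℝ) (J : ℕ) :
    ∑ j ∈ Finset.Icc 1 J, f j = ∑ j ∈ Finset.range J, f (j + 1) := by
  induction J with
  | zero => simp
  | succ n ih => rw [Finset.sum_Icc_succ_top (by omega), Finset.sum_range_succ, ih]

theorem k5_nth : ∀ (R : List Pol) (j : ℕ), ent [] R j = nth R j := fun _ _ => rfl

/-- scaling the list of terms -/
theorem k5_G (β : ℝ) (W : ℝ) (μ : Mu) (η : ℕ → ℂ) :
    G β (μ.map fun t => (t.1, t.2.1, W * t.2.2)) η = (W : ℂ) * G β μ η := by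
  unfold G
  rw [List.map_map, ← List.sum_map_mul_left]
  congr 1
  apply List.map_congr_left
  intro t _
  simp only [Function.comp]
  push_cast
  ring

theorem h_sound {bn bd N L S MM : ℕ} (hbd : 0 < bd) (hbn : 0 < bn) (hL : 0 < L) (hS : 0 < S)
    {es gs : List Pol}
    (hes : ∀ η : ℕ → ℂ, ∃ χ, Mult χ ∧ ∀ k < N, evP χ (nth es k) = η k)
    (hg : gOK es L gs N = true) {h : HD} (hok : okH N bn bd L S MM es gs h = true) :
    ∃ μ : Mu, ∀ (c r η χ : ℕ → ℂ), c 0 = 1 → Slack c → RelR c r → RelY 1 r η → Mult χ →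
      (∀ k < N, evP χ (nth es k) = η k) → hV χ h ≤ (G ((bn : ℝ) / bd) μ η).re := by
  obtain ⟨h1, hok⟩ := c0_and hok
  obtain ⟨h2, hok⟩ := c0_and hok
  obtain ⟨h3, hok⟩ := c0_and hok
  obtain ⟨h4, hok⟩ := c0_and hok
  obtain ⟨h5, h6⟩ := c0_and hok
  obtain ⟨gp, hg0, hgw, hgr⟩ := gp_exists
  have hβ : (0 : ℝ) < (bn : ℝ) / bd := by
    have e1 : (0 : ℝ) < bn := by exact_mod_cast hbn
    have e2 : (0 : ℝ) < bd := by exact_mod_cast hbd
    positivity
  have hS' : (0 : ℝ) < S := by exact_mod_cast hS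
  have hch := chain hbd hbn hL hes hg0 hgr hg h1 h2 h3 h4
  obtain ⟨h1a, h1b⟩ := c0_and h1
  have hN : h.m + h.J ≤ N := Nat.le_of_ble_eq_true h1a
  have hw : ∀ j ≤ h.J, wE (h.m + j) (pP h j 0) = true := by
    intro j hj
    have e1 := (allN_iff.1 h1b) j (by omega)
    obtain ⟨e2, _⟩ := c0_and e1
    exact allN_iff.1 e2 0 (by omega)
  obtain ⟨h2a, h2b⟩ := c0_and h2
  obtain ⟨h5a, h5b⟩ := c0_and h5
  obtain ⟨h5c, h5d⟩ := c0_and h5b
  have hJM : h.J ≤ MM := Nat.le_of_ble_eq_true h5a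
  have hA : h.W * S ≤ h.A * S + h.W * csL bn bd h.m MM 0 S := Nat.le_of_ble_eq_true h5c
  have hB := allN_iff.1 h5d
  obtain ⟨h6a, h6b⟩ := c0_and h6
  obtain ⟨h6c, h6d⟩ := c0_and h6b
  have hBl : h.B.length = h.J := Nat.eq_of_beq_eq_true h6a
  have hRl : h.R.length = h.J := Nat.eq_of_beq_eq_true h6c
  have hR := allN_iff.1 h6d
  obtain ⟨μ, hμ⟩ := ht_main hβ hg0 hgw hgr (HW_toE h2a) hJM
  refine ⟨μ.map fun t => (t.1, t.2.1, (h.W : ℝ) * t.2.2), ?_⟩
  intro c r η χ hc0 hsl hcr hry hχ he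
  have key := hμ c r η hc0 hsl hcr hry
  rw [k5_G, Complex.re_ofReal_mul]
  have hWn : (0 : ℝ) ≤ h.W := Nat.cast_nonneg _
  -- the constants
  have cA : (h.W : ℝ) * (1 - Cs ((bn : ℝ) / bd) h.m MM 0) ≤ h.A := by
    have e1 := csL_le hbd hbn h.m MM 0 S (Nat.zero_le _)
    have e2 : (h.W : ℝ) * S ≤ h.A * S + h.W * (csL bn bd h.m MM 0 S : ℝ) := by exact_mod_cast hA
    have e3 := mul_le_mul_of_nonneg_left e1 hWn
    have e4 : (h.W : ℝ) * (1 - Cs ((bn : ℝ) / bd) h.m MM 0) * S ≤ h.A * S := by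
      have : (h.W : ℝ) * (1 - Cs ((bn : ℝ) / bd) h.m MM 0) * S =
          h.W * S - h.W * (S * Cs ((bn : ℝ) / bd) h.m MM 0) := by ring
      linarith
    exact le_of_mul_le_mul_right e4 hS'
  have cB : ∀ j < h.J, ((ent (nat_lit 0) h.B j : ℕ) : ℝ) * (pd h (j + 1) : ℝ) ^ 2 ≤
      h.W * Cs ((bn : ℝ) / bd) h.m MM (j + 1) := by
    intro j hj
    have e1 := csL_le hbd hbn h.m MM (j + 1) S (by omega)
    have e0 : ent (nat_lit 0) h.B j * pd h (j + 1) ^ 2 * S ≤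
        h.W * csL bn bd h.m MM (j + 1) S := Nat.le_of_ble_eq_true (hB j hj)
    have e2 : ((ent (nat_lit 0) h.B j : ℕ) : ℝ) * (pd h (j + 1) : ℝ) ^ 2 * S ≤
        h.W * (csL bn bd h.m MM (j + 1) S : ℝ) := by exact_mod_cast e0
    have e3 := mul_le_mul_of_nonneg_left e1 hWn
    have e4 : ((ent (nat_lit 0) h.B j : ℕ) : ℝ) * (pd h (j + 1) : ℝ) ^ 2 * S ≤
        h.W * Cs ((bn : ℝ) / bd) h.m MM (j + 1) * S := by
      have : (h.W : ℝ) * Cs ((bn : ℝ) / bd) h.m MM (j + 1) * S =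
          h.W * (S * Cs ((bn : ℝ) / bd) h.m MM (j + 1)) := by ring
      linarith
    exact le_of_mul_le_mul_right e4 hS'
  -- the values
  have vY : evP χ h.YP = va η (toE h.Y) := by
    rw [eqN_ev χ h2b, vE_ev hχ he (w := h.m) (by omega) h2a]
  have vR : ∀ j < h.J, evP χ (nth h.R j) = (pd h (j + 1) : ℂ) * va η (Rs ((bn : ℝ) / bd) h.m
      (fun k => (1 - 2 * (k : ℝ)) • (toE h.Y * gp k)) (j + 1)) := by
    intro j hj
    rw [eqN_ev χ (hR j hj), vE_ev hχ he (w := h.m + (j + 1)) (by omega) (hw (j + 1) (by omega)),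
      hch (j + 1) (by omega)]
    unfold va
    rw [map_smul, Complex.real_smul]
    push_cast
    rfl
  unfold hV
  rw [k5_zip ([] : Pol) (fun b p => (b : ℝ) * ‖evP χ p‖ ^ 2) h.B h.R h.J hBl hRl, vY]
  have s1 : ∑ j ∈ Finset.range h.J, (fun (b : ℕ) (p : Pol) => (b : ℝ) * ‖evP χ p‖ ^ 2)
      (ent (nat_lit 0) h.B j) (ent [] h.R j) ≤
      h.W * ∑ j ∈ Finset.Icc 1 h.J, Cs ((bn : ℝ) / bd) h.m MM j * ‖va η (Rs ((bn : ℝ) / bd) h.m
        (fun k => (1 - 2 * (k : ℝ)) • (toE h.Y * gp k)) j)‖ ^ 2 := by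
    rw [k5_icc, Finset.mul_sum]
    refine Finset.sum_le_sum fun j hj => ?_
    rw [Finset.mem_range] at hj
    show ((ent (nat_lit 0) h.B j : ℕ) : ℝ) * ‖evP χ (nth h.R j)‖ ^ 2 ≤ _
    rw [vR j hj, norm_mul, mul_pow, Complex.norm_natCast, ← mul_assoc, ← mul_assoc]
    exact mul_le_mul_of_nonneg_right (cB j hj) (sq_nonneg _)
  have s2 := mul_le_mul_of_nonneg_right cA (sq_nonneg ‖va η (toE h.Y)‖)
  have s3 := mul_le_mul_of_nonneg_left key hWn
  rw [mul_zero, mul_add, mul_sub, ← mul_assoc] at s3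
  linarith

end Pool.Agent.H5.HT
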