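import Pool.Agent.H5.HT.Def
import Pool.Agent.H58.BJ.CDef

/-!
# Project HT: the checker of the multiplier data

The jets `η_k` are given by code polynomials `es` (checker of project BJ).
-/

set_option autoImplicit false

namespace Pool.Agent.H5.HT

open Pool.Agent.H58.BJ
open scoped ComplexConjugate

/-- polynomials in the jets: lists of (coefficient, monomial) -/
abbrev EP := List (ℤ × List ℕ)

/-- the polynomial -/
noncomputable def toE (p : EP) : Py :=
  (p.map fun x => ((x.1 : ℤ) : ℝ) • (x.2.map fun k => (MvPolynomial.X k : Py)).prod).sum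

/-- entry of a list -/
noncomputable def ent {A : Type} (d : A) (l : List A) : ℕ → A :=
  List.rec (motive := fun _ => ℕ → A) (fun _ => d)
    (fun h _ ih n => Nat.rec (motive := fun _ => A) h (fun m _ => ih m) n) l

/-- `f 0 && ... && f (n-1)` -/
noncomputable def allN (n : ℕ) (f : ℕ → Bool) : Bool :=
  Nat.rec (motive := fun _ => Bool) true (fun k ih => Bool.and ih (f k)) n

/-- product of `f 0, ..., f (n-1)` -/
noncomputable def prN (n : ℕ) (f : ℕ → ℕ) : ℕ :=
  Nat.rec (motive := fun _ => ℕ) (nat_lit 1) (fun k ih => Nat.mul ih (f k)) n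

/-- value of a polynomial in the jets, as a polynomial in the codes -/
noncomputable def vE (es : List Pol) (p : EP) : Pol :=
  List.rec (motive := fun _ => Pol) [] (fun x _ ih => app (smulP x.1 (monP es x.2)) ih) p

/-- value of `D'` of a polynomial in the jets -/
noncomputable def dE (es : List Pol) (p : EP) : Pol :=
  List.rec (motive := fun _ => Pol) [] (fun x _ ih => app (smulP x.1 (DP es x.2)) ih) p

/-- all monomials have weight `w` -/
noncomputable def wE (w : ℕ) (p : EP) : Bool :=
  List.rec (motive := fun _ => Bool) true (fun x _ ih => Bool.and (Nat.beq (wtL x.2) w) ih) p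

/-- minus a polynomial -/
noncomputable def negP (p : Pol) : Pol :=
  List.rec (motive := fun _ => Pol) [] (fun x _ ih => (x.1, Int.neg x.2) :: ih) p

/-- all coefficients are zero -/
noncomputable def zerP (p : Pol) : Bool :=
  List.rec (motive := fun _ => Bool) true
    (fun x _ ih => Bool.and (eqI x.2 (Int.ofNat (nat_lit 0))) ih) p

/-- equality of polynomials -/
noncomputable def eqN (p q : Pol) : Bool := zerP (norP (app p (negP q)))

/-- left side of the recursion of `G_k = L^k g_k` -/
noncomputable def gl (es : List Pol) (L : ℕ) (gs : List Pol) (n : ℕ) : Pol :=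
  sumP (n + 1) fun k => smulP ((L ^ (k + 1) : ℕ) : ℤ) (mulP (nth es k)
    (sumP (n - k + 1) fun i =>
      smulP (1 - 2 * ((n - k - i : ℕ) : ℤ)) (mulP (nth gs i) (nth gs (n - k - i)))))

/-- right side -/
noncomputable def gr (gs : List Pol) (n : ℕ) : Pol :=
  sumP (n + 1) fun i =>
    app (smulP (-3 * ((i : ℤ) + 1) * (1 - 2 * ((n - i : ℕ) : ℤ)))
        (mulP (nth gs (i + 1)) (nth gs (n - i))))
      (smulP ((((n - i : ℕ) : ℤ) + 1) * (1 - 2 * (((n - i : ℕ) : ℤ) + 1)))
        (mulP (nth gs i) (nth gs (n - i + 1))))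

/-- all recursions below `n` -/
noncomputable def gOK (es : List Pol) (L : ℕ) (gs : List Pol) (n : ℕ) : Bool :=
  Bool.and (eqP (nth gs (nat_lit 0)) [(nat_lit 1, Int.ofNat (nat_lit 1))])
    (allN n fun k => eqN (gl es L gs k) (gr gs k))

/-- lower bounds of the constants, in units `1 / S`: `n` further steps from the state `l, u, s` -/
noncomputable def csG (bn bd m j : ℕ) (n : ℕ) : ℕ → ℕ → ℕ → ℕ :=
  Nat.rec (motive := fun _ => ℕ → ℕ → ℕ → ℕ) (fun _ _ s => s)
    (fun _ ih l u s =>
      fN (u * (2 * j + 2 * l + 1) ^ 2 * bd /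
        (4 * (l + 1) * (bd * (2 * (m + j) + 1 + l) + bn))) fun u' =>
      fN (s + u' / (2 * (j + l) + 1)) fun s' => fN (l + 1) fun l' => ih l' u' s') n

/-- lower bound of `S * Cs (bn/bd) m M j` -/
noncomputable def csL (bn bd m M j S : ℕ) : ℕ :=
  csG bn bd m j (M - j) 0 S (bif Nat.beq j 0 then 0 else S / (2 * j - 1))

/-- data for one multiplier -/
structure HD where
  /-- weight -/
  m : ℕ
  /-- number of constants -/
  J : ℕ
  /-- factor -/
  W : ℕ
  /-- coefficient of `|Y|^2` -/
  A : ℕ
  /-- the multiplier -/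
  Y : EP
  /-- its polynomial in the codes -/
  YP : Pol
  /-- `P j p = d_j D'^p R_j` -/
  P : List (List EP)
  /-- the numbers `d_j` -/
  d : List ℕ
  /-- the numbers `M_k` -/
  M : List ℕ
  /-- the numbers `E k j` -/
  E : List (List ℕ)
  /-- `B_1, ..., B_J` -/
  B : List ℕ
  /-- `d_j R_j` for `j = 1, ..., J` in the codes -/
  R : List Pol

/-- `P j p` -/
noncomputable def pP (h : HD) (j p : ℕ) : EP := ent [] (ent [] h.P j) p

/-- `d_j` -/
noncomputable def pd (h : HD) (j : ℕ) : ℕ := ent (nat_lit 0) h.d j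

/-- `M_k` -/
noncomputable def pM (h : HD) (k : ℕ) : ℕ := ent (nat_lit 0) h.M k

/-- `E k j` -/
noncomputable def pE (h : HD) (k j : ℕ) : ℕ := ent (nat_lit 0) (ent [] h.E k) j

/-- the derivatives -/
noncomputable def ok1 (N : ℕ) (es : List Pol) (h : HD) : Bool :=
  Bool.and (Nat.ble (h.m + h.J) N)
    (allN (h.J + 1) fun j => Bool.and
      (allN (h.J - j + 1) fun p => wE (h.m + j + p) (pP h j p))
      (allN (h.J - j) fun p => eqN (dE es (pP h j p)) (vE es (pP h j (p + 1)))))

/-- the multiplier -/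
noncomputable def ok2 (es : List Pol) (h : HD) : Bool :=
  Bool.and (wE h.m h.Y) (eqN h.YP (vE es h.Y))

/-- the decomposition of `K_k` -/
noncomputable def ok3 (es gs : List Pol) (h : HD) : Bool :=
  allN (h.J + 1) fun k => eqN
    (smulP (((pM h k : ℕ) : ℤ) * (1 - 2 * (k : ℤ))) (mulP h.YP (nth gs k)))
    (sumP (k + 1) fun j => smulP ((pE h k j : ℕ) : ℤ) (vE es (pP h j (k - j))))

/-- the coefficients -/
noncomputable def ok4 (bn bd L : ℕ) (h : HD) : Bool :=
  allN (h.J + 1) fun k => Bool.and (Nat.ble (nat_lit 1) (pM h k)) (Bool.and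
    (Nat.ble (nat_lit 1) (pd h k))
    (allN (k + 1) fun j => Nat.beq
      (pE h k j * pd h j * ((k - j).factorial *
        prN (k - j) (fun i => bd * (2 * (h.m + j) + 1 + i) + bn) * 2 ^ (k - j)))
      (pM h k * L ^ k * (prN (k - j) (fun i => 2 * j + 2 * i + 1) * bd ^ (k - j)))))

/-- the constants -/
noncomputable def ok5 (bn bd S MM : ℕ) (h : HD) : Bool :=
  Bool.and (Nat.ble h.J MM) (Bool.and
    (Nat.ble (h.W * S) (h.A * S + h.W * csL bn bd h.m MM 0 S))
    (allN h.J fun j => Nat.ble
      (ent (nat_lit 0) h.B j * pd h (j + 1) ^ 2 * S) (h.W * csL bn bd h.m MM (j + 1) S)))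

/-- the polynomials in the codes -/
noncomputable def ok6 (es : List Pol) (h : HD) : Bool :=
  Bool.and (Nat.beq (h.B.length) h.J) (Bool.and (Nat.beq (h.R.length) h.J)
    (allN h.J fun j => eqN (nth h.R j) (vE es (pP h (j + 1) 0))))

/-- everything -/
noncomputable def okH (N bn bd L S MM : ℕ) (es gs : List Pol) (h : HD) : Bool :=
  Bool.and (ok1 N es h) (Bool.and (ok2 es h) (Bool.and (ok3 es gs h)
    (Bool.and (ok4 bn bd L h) (Bool.and (ok5 bn bd S MM h) (ok6 es h)))))

/-- the form of a multiplier: `- A |Y|^2 + ∑ B_j |d_j R_j|^2` -/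
noncomputable def hV (χ : ℕ → ℂ) (h : HD) : ℝ :=
  -(h.A : ℝ) * ‖evP χ h.YP‖ ^ 2 +
    ((h.B.zip h.R).map fun x => ((x.1 : ℕ) : ℝ) * ‖evP χ x.2‖ ^ 2).sum

/-- insert `∑ B_j |R_j|^2` -/
noncomputable def bIns (B : List ℕ) : List Pol → Tr → Tr :=
  List.rec (motive := fun _ => List Pol → Tr → Tr) (fun _ t => t)
    (fun b _ ih R t => List.rec (motive := fun _ => Tr) t
      (fun p R' _ => fT (insO (nat_lit 1) (nat_lit 1) (Int.ofNat b) p p t) (ih R')) R) B

/-- insert the form of a multiplier -/
noncomputable def hIns (h : HD) (t : Tr) : Tr :=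
  fT (insO (nat_lit 1) (nat_lit 1) (Int.neg (Int.ofNat h.A)) h.YP h.YP t) (bIns h.B h.R)

/-- all multipliers -/
noncomputable def hAll (l : List HD) : Tr → Tr :=
  List.rec (motive := fun _ => Tr → Tr) (fun t => t) (fun h _ ih t => fT (hIns h t) ih) l

/-- all leaves are zero -/
noncomputable def zerT (t : Tr) : Bool :=
  Tr.rec (motive := fun _ => Bool) true (fun z => eqI z (Int.ofNat (nat_lit 0)))
    (fun _ _ il ir => Bool.and il ir) t

/-- commands without area inequalities -/
noncomputable def noA (c : Cmd) : Bool :=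
  Cmd.rec (motive := fun _ => Bool) (fun _ => true) (fun _ _ _ => false) (fun _ _ _ => true) c

end Pool.Agent.H5.HT
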